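import Mathlib

/-!
Commutative l-bimonoids, terms, varieties, homomorphisms, and the algebras of pairs over
a bounded distributive lattice with a complemented constant.
-/

namespace Pool.Agent.Q297.BM

universe u v

/-- A commutative `ℓ`-bimonoid: a lattice with two commutative monoid structures
`(·, 1)` and `(+, 0)` such that `·` distributes over binary joins, `+` distributes over binary
meets, and hemidistributivity `x · (y + z) ≤ (x · y) + z` holds.  (Monotonicity of both
operations follows from the two distributive laws.) -/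
class LBimonoid (A : Type u) extends Lattice A, Mul A, Add A, One A, Zero A where
  mulAssoc : ∀ x y z : A, x * y * z = x * (y * z)
  mulComm : ∀ x y : A, x * y = y * x
  oneMul : ∀ x : A, 1 * x = x
  addAssoc : ∀ x y z : A, x + y + z = x + (y + z)
  addComm : ∀ x y : A, x + y = y + x
  zeroAdd : ∀ x : A, 0 + x = x
  hemi : ∀ x y z : A, x * (y + z) ≤ x * y + z
  mulSup : ∀ x y z : A, x * (y ⊔ z) = x * y ⊔ x * z
  addInf : ∀ x y z : A, x + (y ⊓ z) = (x + y) ⊓ (x + z)

/-- A commutative `ℓ`-bimonoid is (the one given by) a bounded distributive lattice when `·` is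
the meet, `+` is the join, `1` is the top and `0` is the bottom, and the lattice is
distributive. -/
def IsBDL (A : Type u) [LBimonoid A] : Prop :=
  (∀ x y z : A, x ⊓ (y ⊔ z) = (x ⊓ y) ⊔ (x ⊓ z)) ∧
  (∀ x y : A, x * y = x ⊓ y) ∧ (∀ x y : A, x + y = x ⊔ y) ∧
  (∀ x : A, x ≤ 1) ∧ (∀ x : A, 0 ≤ x)

/-- Terms in the language `·, +, 1, 0, ∧, ∨` with variables indexed by `ℕ`. -/
inductive Tm : Type
  | var : ℕ → Tm
  | one : Tm
  | zero : Tm
  | mul : Tm → Tm → Tm
  | add : Tm → Tm → Tm
  | inf : Tm → Tm → Tm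
  | sup : Tm → Tm → Tm

/-- Evaluation of terms. -/
def Tm.eval {A : Type u} [LBimonoid A] (v : ℕ → A) : Tm → A
  | .var n => v n
  | .one => 1
  | .zero => 0
  | .mul s t => s.eval v * t.eval v
  | .add s t => s.eval v + t.eval v
  | .inf s t => s.eval v ⊓ t.eval v
  | .sup s t => s.eval v ⊔ t.eval v

/-- `A` satisfies all the identities in `E`.  The variety of commutative `ℓ`-bimonoids
defined by `E` is the class of all commutative `ℓ`-bimonoids `A` with `Models A E`. -/
def Models (A : Type u) [LBimonoid A] (E : Set (Tm × Tm)) : Prop :=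
  ∀ p ∈ E, ∀ v : ℕ → A, p.1.eval v = p.2.eval v

/-- Homomorphisms of commutative `ℓ`-bimonoids: they preserve `·, +, 1, 0, ∧, ∨`. -/
structure Hom (A : Type u) (B : Type v) [LBimonoid A] [LBimonoid B] where
  toFun : A → B
  map_mul : ∀ x y, toFun (x * y) = toFun x * toFun y
  map_add : ∀ x y, toFun (x + y) = toFun x + toFun y
  map_one : toFun 1 = 1
  map_zero : toFun 0 = 0
  map_inf : ∀ x y, toFun (x ⊓ y) = toFun x ⊓ toFun y
  map_sup : ∀ x y, toFun (x ⊔ y) = toFun x ⊔ toFun y

theorem Hom.eval {A : Type u} {B : Type v} [LBimonoid A] [LBimonoid B] (f : Hom A B)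
    (w : ℕ → A) (s : Tm) : f.toFun (s.eval w) = s.eval (fun n => f.toFun (w n)) := by
  induction s with
  | var n => rfl
  | one => exact f.map_one
  | zero => exact f.map_zero
  | mul s t hs ht => simp only [Tm.eval]; rw [f.map_mul, hs, ht]
  | add s t hs ht => simp only [Tm.eval]; rw [f.map_add, hs, ht]
  | inf s t hs ht => simp only [Tm.eval]; rw [f.map_inf, hs, ht]
  | sup s t hs ht => simp only [Tm.eval]; rw [f.map_sup, hs, ht]

/-! ### Prime separation in bounded distributive lattices -/

/-- Bounded lattice homomorphisms to the two element lattice. -/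
structure PH (S : Type u) [DistribLattice S] [BoundedOrder S] where
  f : S → Prop
  bot : ¬ f ⊥
  top : f ⊤
  inf : ∀ a b, f (a ⊓ b) ↔ f a ∧ f b
  sup : ∀ a b, f (a ⊔ b) ↔ f a ∨ f b

section
variable {S : Type u} [DistribLattice S] [BoundedOrder S]

theorem PH.mono (p : PH S) {a b : S} (h : a ≤ b) (ha : p.f a) : p.f b := by
  have h1 : a ⊔ b = b := sup_eq_right.mpr h
  rw [← h1, p.sup]
  exact Or.inl ha

theorem exists_PH {a b : S} (h : ¬ a ≤ b) : ∃ p : PH S, p.f a ∧ ¬ p.f b := by
  have hd : Disjoint ((Order.PFilter.principal a : Order.PFilter S) : Set S)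
      ((Order.Ideal.principal b : Order.Ideal S) : Set S) := by
    rw [Set.disjoint_left]
    intro x hx hx'
    have h1 : a ≤ x := by simpa using hx
    have h2 : x ≤ b := by simpa using hx'
    exact h (h1.trans h2)
  obtain ⟨J, hJ, hbJ, hJd⟩ := DistribLattice.prime_ideal_of_disjoint_filter_ideal hd
  have htop : ⊤ ∉ J := hJ.toIsProper.top_notMem
  refine ⟨⟨fun x => x ∉ J, ?_, htop, ?_, ?_⟩, ?_, ?_⟩
  · intro hb
    exact hb J.bot_mem
  · intro x y
    constructor
    · intro hxy
      exact ⟨fun hx => hxy (J.lower inf_le_left hx), fun hy => hxy (J.lower inf_le_right hy)⟩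
    · rintro ⟨hx, hy⟩ hxy
      rcases hJ.mem_or_mem hxy with h1 | h1
      · exact hx h1
      · exact hy h1
  · intro x y
    rw [Order.Ideal.sup_mem_iff]
    tauto
  · intro ha
    rw [Set.disjoint_left] at hJd
    exact hJd (by simp) ha
  · intro hb
    exact hb (hbJ (by simp))

theorem le_of_PH {a b : S} (h : ∀ p : PH S, p.f a → p.f b) : a ≤ b := by
  by_contra hc
  obtain ⟨p, h1, h2⟩ := exists_PH hc
  exact h2 (h p h1)

theorem eq_of_PH {a b : S} (h : ∀ p : PH S, (p.f a ↔ p.f b)) : a = b :=
  le_antisymm (le_of_PH fun p => (h p).1) (le_of_PH fun p => (h p).2)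

theorem PH.compl {C : Type u} [BooleanAlgebra C] (p : PH C) (a : C) : p.f aᶜ ↔ ¬ p.f a := by
  have h1 : p.f (a ⊓ aᶜ) ↔ p.f a ∧ p.f aᶜ := p.inf a aᶜ
  have h2 : p.f (a ⊔ aᶜ) ↔ p.f a ∨ p.f aᶜ := p.sup a aᶜ
  rw [inf_compl_eq_bot] at h1
  rw [sup_compl_eq_top] at h2
  have h3 := p.bot
  have h4 := p.top
  tauto

end

/-! ### The algebras of pairs -/

/-- A bounded distributive lattice with a complemented constant. -/
structure TS (S : Type u) [DistribLattice S] [BoundedOrder S] where
  t : S
  t' : S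
  inf_eq : t ⊓ t' = ⊥
  sup_eq : t ⊔ t' = ⊤

/-- Pairs `(α, β)` with `β ≤ t`. -/
@[ext]
structure El {S : Type u} [DistribLattice S] [BoundedOrder S] (T : TS S) where
  fst : S
  snd : S
  le : snd ≤ T.t

section
variable {S : Type u} [DistribLattice S] [BoundedOrder S]

theorem PH.t' (p : PH S) (T : TS S) : p.f T.t' ↔ ¬ p.f T.t := by
  have h1 := p.inf T.t T.t'
  have h2 := p.sup T.t T.t'
  rw [T.inf_eq] at h1
  rw [T.sup_eq] at h2
  have h3 := p.bot
  have h4 := p.top
  tauto

theorem PH.snd (p : PH S) {T : TS S} (x : El T) (h : p.f x.snd) : p.f T.t := p.mono x.le h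

variable {T : TS S}

instance : Lattice (El T) where
  le x y := x.fst ≤ y.fst ∧ x.snd ≤ y.snd
  le_refl x := ⟨le_refl _, le_refl _⟩
  le_trans x y z h h' := ⟨h.1.trans h'.1, h.2.trans h'.2⟩
  le_antisymm x y h h' := El.ext (le_antisymm h.1 h'.1) (le_antisymm h.2 h'.2)
  inf x y := ⟨x.fst ⊓ y.fst, x.snd ⊓ y.snd, inf_le_left.trans x.le⟩
  sup x y := ⟨x.fst ⊔ y.fst, x.snd ⊔ y.snd, sup_le x.le y.le⟩
  inf_le_left x y := ⟨inf_le_left, inf_le_left⟩
  inf_le_right x y := ⟨inf_le_right, inf_le_right⟩
  le_inf x y z h h' := ⟨le_inf h.1 h'.1, le_inf h.2 h'.2⟩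
  le_sup_left x y := ⟨le_sup_left, le_sup_left⟩
  le_sup_right x y := ⟨le_sup_right, le_sup_right⟩
  sup_le x y z h h' := ⟨sup_le h.1 h'.1, sup_le h.2 h'.2⟩

instance : Mul (El T) :=
  ⟨fun x y => ⟨(x.fst ⊓ y.fst) ⊔ (x.snd ⊓ y.snd), (x.fst ⊓ y.snd) ⊔ (x.snd ⊓ y.fst),
    sup_le (inf_le_right.trans y.le) (inf_le_left.trans x.le)⟩⟩

instance : Add (El T) :=
  ⟨fun x y => ⟨(x.fst ⊔ y.fst) ⊓ (x.snd ⊔ y.snd ⊔ T.t'),
    (x.fst ⊔ y.snd) ⊓ (x.snd ⊔ y.fst) ⊓ T.t, inf_le_right⟩⟩

instance : One (El T) := ⟨⟨⊤, ⊥, bot_le⟩⟩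

instance : Zero (El T) := ⟨⟨⊥, T.t, le_refl _⟩⟩

theorem le_def (x y : El T) : x ≤ y ↔ x.fst ≤ y.fst ∧ x.snd ≤ y.snd := Iff.rfl
@[simp] theorem inf_fst (x y : El T) : (x ⊓ y).fst = x.fst ⊓ y.fst := rfl
@[simp] theorem inf_snd (x y : El T) : (x ⊓ y).snd = x.snd ⊓ y.snd := rfl
@[simp] theorem sup_fst (x y : El T) : (x ⊔ y).fst = x.fst ⊔ y.fst := rfl
@[simp] theorem sup_snd (x y : El T) : (x ⊔ y).snd = x.snd ⊔ y.snd := rfl
@[simp] theorem mul_fst (x y : El T) : (x * y).fst = (x.fst ⊓ y.fst) ⊔ (x.snd ⊓ y.snd) := rfl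
@[simp] theorem mul_snd (x y : El T) : (x * y).snd = (x.fst ⊓ y.snd) ⊔ (x.snd ⊓ y.fst) := rfl
@[simp] theorem add_fst (x y : El T) :
    (x + y).fst = (x.fst ⊔ y.fst) ⊓ (x.snd ⊔ y.snd ⊔ T.t') := rfl
@[simp] theorem add_snd (x y : El T) :
    (x + y).snd = (x.fst ⊔ y.snd) ⊓ (x.snd ⊔ y.fst) ⊓ T.t := rfl
@[simp] theorem one_fst : (1 : El T).fst = ⊤ := rfl
@[simp] theorem one_snd : (1 : El T).snd = ⊥ := rfl
@[simp] theorem zero_fst : (0 : El T).fst = ⊥ := rfl
@[simp] theorem zero_snd : (0 : El T).snd = T.t := rfl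

instance : LBimonoid (El T) where
  mulAssoc x y z := by
    ext <;> refine eq_of_PH fun p => ?_ <;>
      simp only [mul_fst, mul_snd, p.inf, p.sup] <;> tauto
  mulComm x y := by
    ext <;> refine eq_of_PH fun p => ?_ <;>
      simp only [mul_fst, mul_snd, p.inf, p.sup] <;> tauto
  oneMul x := by
    ext <;> refine eq_of_PH fun p => ?_ <;>
      simp only [mul_fst, mul_snd, one_fst, one_snd, p.inf, p.sup, p.bot, p.top] <;> tauto
  addAssoc x y z := by
    ext <;> refine eq_of_PH fun p => ?_ <;>
      have h1 := p.t' T <;> have h2 := p.snd x <;> have h3 := p.snd y <;>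
      have h4 := p.snd z <;>
      simp only [add_fst, add_snd, p.inf, p.sup] <;> by_cases ht : p.f T.t <;>
      simp only [ht] at h1 h2 h3 h4 ⊢ <;> tauto
  addComm x y := by
    ext <;> refine eq_of_PH fun p => ?_ <;>
      simp only [add_fst, add_snd, p.inf, p.sup] <;> tauto
  zeroAdd x := by
    ext <;> refine eq_of_PH fun p => ?_ <;>
      have h1 := p.t' T <;> have h2 := p.snd x <;>
      simp only [add_fst, add_snd, zero_fst, zero_snd, p.inf, p.sup, p.bot] <;> tauto
  hemi x y z := by
    rw [le_def]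
    constructor <;> refine le_of_PH fun p => ?_ <;>
      have h1 := p.t' T <;> have h2 := p.snd x <;> have h3 := p.snd y <;>
      have h4 := p.snd z <;>
      simp only [add_fst, add_snd, mul_fst, mul_snd, p.inf, p.sup] <;>
      by_cases ht : p.f T.t <;>
      simp only [ht] at h1 h2 h3 h4 ⊢ <;> tauto
  mulSup x y z := by
    ext <;> refine eq_of_PH fun p => ?_ <;>
      simp only [mul_fst, mul_snd, sup_fst, sup_snd, p.inf, p.sup] <;> tauto
  addInf x y z := by
    ext <;> refine eq_of_PH fun p => ?_ <;>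
      simp only [add_fst, add_snd, inf_fst, inf_snd, p.inf, p.sup] <;> tauto

end

/-! ### The two generating algebras -/

/-- The constant `t = q` in the two element lattice. -/
def TP (q : Prop) : TS Prop where
  t := q
  t' := ¬ q
  inf_eq := by simp
  sup_eq := by
    have : q ∨ ¬ q := em q
    simpa using this

@[simp] theorem TP_t (q : Prop) : (TP q).t = q := rfl
@[simp] theorem TP_t' (q : Prop) : (TP q).t' = ¬ q := rfl

/-- A prime homomorphism gives a homomorphism to a generating algebra. -/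
def toP {S : Type u} [DistribLattice S] [BoundedOrder S] (T : TS S) (p : PH S) :
    Hom (El T) (El (TP (p.f T.t))) where
  toFun x := ⟨p.f x.fst, p.f x.snd, fun h => p.snd x h⟩
  map_mul x y := by
    ext <;> simp [p.inf, p.sup]
  map_add x y := by
    ext <;> simp [p.inf, p.sup, p.t' T]
  map_one := by
    ext <;> simp [p.top, p.bot]
  map_zero := by
    ext <;> simp [p.bot]
  map_inf x y := by
    ext <;> simp [p.inf]
  map_sup x y := by
    ext <;> simp [p.sup]

/-- The identities valid in the algebras of pairs over the two element lattice. -/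
def Sig : Set (Tm × Tm) :=
  {e | ∀ (q : Prop) (w : ℕ → El (TP q)), e.1.eval w = e.2.eval w}

theorem El_models {S : Type u} [DistribLattice S] [BoundedOrder S] (T : TS S) :
    Models (El T) Sig := by
  intro e he w
  ext
  · refine eq_of_PH fun p => ?_
    have h1 := (toP T p).eval w e.1
    have h2 := (toP T p).eval w e.2
    have h3 := he (p.f T.t) (fun n => (toP T p).toFun (w n))
    rw [h3, ← h2] at h1
    have h4 := congrArg El.fst h1
    exact iff_of_eq h4
  · refine eq_of_PH fun p => ?_
    have h1 := (toP T p).eval w e.1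
    have h2 := (toP T p).eval w e.2
    have h3 := he (p.f T.t) (fun n => (toP T p).toFun (w n))
    rw [h3, ← h2] at h1
    have h4 := congrArg El.snd h1
    exact iff_of_eq h4

/-! ### Bounded distributive lattices satisfy the identities -/

/-- The lattice structure of a bounded distributive lattice. -/
@[instance_reducible] def bdlDistrib (Y : Type u) [LBimonoid Y] (h : IsBDL Y) :
    DistribLattice Y :=
  DistribLattice.ofInfSupLe fun x y z => (h.1 x y z).le

@[instance_reducible] def bdlBounded (Y : Type u) [LBimonoid Y] (h : IsBDL Y) :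
    BoundedOrder Y where
  top := 1
  bot := 0
  le_top := h.2.2.2.1
  bot_le := h.2.2.2.2

theorem bdl_models (Y : Type u) [LBimonoid Y] (h : IsBDL Y) : Models Y Sig := by
  intro e he w
  let _ : DistribLattice Y := bdlDistrib Y h
  let _ : BoundedOrder Y := bdlBounded Y h
  refine eq_of_PH fun p => ?_
  let F : Hom Y (El (TP False)) :=
    { toFun := fun x => ⟨p.f x, False, fun h => h⟩
      map_mul := by
        intro x y
        ext
        · rw [h.2.1]
          simp [p.inf]
        · simp
      map_add := by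
        intro x y
        ext
        · rw [h.2.2.1]
          simp [p.sup]
        · simp
      map_one := by
        ext
        · have : p.f (1 : Y) := p.top
          simpa using this
        · simp
      map_zero := by
        ext
        · have : ¬ p.f (0 : Y) := p.bot
          simpa using this
        · simp
      map_inf := by
        intro x y
        ext
        · simp [p.inf]
        · simp
      map_sup := by
        intro x y
        ext
        · simp [p.sup]
        · simp }
  have h1 := F.eval w e.1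
  have h2 := F.eval w e.2
  have h3 := he False (fun n => F.toFun (w n))
  rw [h3, ← h2] at h1
  have h4 := congrArg El.fst h1
  exact iff_of_eq h4

/-- The four element algebra of pairs over the two element lattice with `t = 1` is not a
bounded distributive lattice. -/
theorem not_bdl : ∃ (A : Type u) (_ : LBimonoid A), Models A Sig ∧ ¬ IsBDL A := by
  let T : TS (ULift.{u} Prop) :=
    { t := ⊤, t' := ⊥, inf_eq := by simp, sup_eq := by simp }
  refine ⟨El T, inferInstance, El_models T, ?_⟩
  intro h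
  have h1 := (h.2.2.2.1 (0 : El T)).2
  simp only [zero_snd, one_snd] at h1
  have h2 : (⊤ : ULift.{u} Prop) ≤ ⊥ := h1
  have h3 : (⊤ : ULift.{u} Prop).down ≤ (⊥ : ULift.{u} Prop).down := h2
  exact h3 trivial

end Pool.Agent.Q297.BM
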