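import Pool.Agent.Q297.BM.Basic

/-!
The complete Boolean algebra densely generated by a bounded distributive lattice.
-/

namespace Pool.Agent.Q297.BM

universe u

section
variable (S : Type u) [DistribLattice S] [BoundedOrder S]

/-- Nonempty differences `a ∖ b` of elements of `S`. -/
def QQ : Type u := {q : S × S // ∃ p : PH S, p.f q.1 ∧ ¬ p.f q.2}

instance : Preorder (QQ S) where
  le q r := ∀ p : PH S, p.f q.1.1 → ¬ p.f q.1.2 → p.f r.1.1 ∧ ¬ p.f r.1.2
  le_refl q := fun p h1 h2 => ⟨h1, h2⟩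
  le_trans q r s h h' := fun p h1 h2 => h' p (h p h1 h2).1 (h p h1 h2).2

/-- The completion. -/
def CC : Type u := Heyting.Regular (LowerSet (QQ S))

instance : BooleanAlgebra (CC S) :=
  inferInstanceAs (BooleanAlgebra (Heyting.Regular (LowerSet (QQ S))))

variable {S}

theorem qq_le (q r : QQ S) :
    q ≤ r ↔ ∀ p : PH S, p.f q.1.1 → ¬ p.f q.1.2 → p.f r.1.1 ∧ ¬ p.f r.1.2 := Iff.rfl

theorem mem_compl (U : LowerSet (QQ S)) (q : QQ S) : q ∈ Uᶜ ↔ ∀ r ≤ q, r ∉ U := by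
  rw [← LowerSet.Iic_le, le_compl_iff_disjoint_right, disjoint_iff_inf_le]
  constructor
  · intro h r hr hU
    have h1 : r ∈ LowerSet.Iic q ⊓ U := LowerSet.mem_inf_iff.mpr ⟨hr, hU⟩
    exact h h1
  · intro h r hr
    have h1 := LowerSet.mem_inf_iff.mp hr
    exact absurd h1.2 (h r h1.1)

/-- The lower set of differences below `s`. -/
def io0 (s : S) : LowerSet (QQ S) where
  carrier := {q | ∀ p : PH S, p.f q.1.1 → ¬ p.f q.1.2 → p.f s}
  lower' := by
    intro q r hrq hq p h1 h2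
    have h3 := hrq p h1 h2
    exact hq p h3.1 h3.2

theorem mem_io0 (s : S) (q : QQ S) :
    q ∈ io0 s ↔ ∀ p : PH S, p.f q.1.1 → ¬ p.f q.1.2 → p.f s := Iff.rfl

theorem mem_io0_compl (s : S) (q : QQ S) :
    q ∈ (io0 s)ᶜ ↔ ∀ p : PH S, p.f q.1.1 → ¬ p.f q.1.2 → ¬ p.f s := by
  rw [mem_compl]
  constructor
  · intro h p h1 h2 h3
    refine h ⟨(q.1.1 ⊓ s, q.1.2), p, (p.inf _ _).mpr ⟨h1, h3⟩, h2⟩ ?_ ?_
    · intro p' h4 h5
      exact ⟨((p'.inf _ _).mp h4).1, h5⟩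
    · intro p' h4 h5
      exact ((p'.inf _ _).mp h4).2
  · intro h r hr hU
    obtain ⟨p, h1, h2⟩ := r.2
    have h3 := hr p h1 h2
    exact h p h3.1 h3.2 (hU p h1 h2)

theorem io0_reg (s : S) : Heyting.IsRegular (io0 s) := by
  refine SetLike.ext fun q => ?_
  rw [mem_compl]
  constructor
  · intro h p h1 h2
    by_contra h3
    refine h ⟨(q.1.1, q.1.2 ⊔ s), p, h1, ?_⟩ ?_ ?_
    · intro h4
      rcases (p.sup _ _).mp h4 with h5 | h5
      · exact h2 h5
      · exact h3 h5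
    · intro p' h4 h5
      exact ⟨h4, fun h6 => h5 ((p'.sup _ _).mpr (Or.inl h6))⟩
    · rw [mem_io0_compl]
      intro p' h4 h5 h6
      exact h5 ((p'.sup _ _).mpr (Or.inr h6))
  · intro h r hr hc
    rw [mem_io0_compl] at hc
    obtain ⟨p, h1, h2⟩ := r.2
    have h3 := hr p h1 h2
    exact hc p h1 h2 (h p h3.1 h3.2)

/-- The embedding of `S` as elements. -/
def io1 (s : S) : CC S := ⟨io0 s, io0_reg s⟩

/-- Membership of a difference in an element of the completion. -/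
def mm (q : QQ S) (a : CC S) : Prop := q ∈ Heyting.Regular.val a

theorem cc_ext {a b : CC S} (h : ∀ q : QQ S, mm q a ↔ mm q b) : a = b :=
  Heyting.Regular.coe_injective (α := LowerSet (QQ S)) (SetLike.ext h)

theorem cc_le {a b : CC S} : a ≤ b ↔ ∀ q : QQ S, mm q a → mm q b := Iff.rfl

theorem cc_inf (a b : CC S) (q : QQ S) : mm q (a ⊓ b) ↔ mm q a ∧ mm q b :=
  LowerSet.mem_inf_iff

theorem cc_io (s : S) (q : QQ S) :
    mm q (io1 s) ↔ ∀ p : PH S, p.f q.1.1 → ¬ p.f q.1.2 → p.f s := Iff.rfl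

theorem cc_compl_io (s : S) (q : QQ S) :
    mm q ((io1 s)ᶜ) ↔ ∀ p : PH S, p.f q.1.1 → ¬ p.f q.1.2 → ¬ p.f s :=
  mem_io0_compl s q

/-- The embedding of `S` as a bounded lattice homomorphism. -/
def io : BoundedLatticeHom S (CC S) where
  toFun := io1
  map_sup' a b := by
    rw [← compl_inj_iff, compl_sup]
    refine cc_ext fun q => ?_
    rw [cc_inf, cc_compl_io, cc_compl_io, cc_compl_io]
    constructor
    · intro h
      exact ⟨fun p h1 h2 h3 => h p h1 h2 ((p.sup _ _).mpr (Or.inl h3)),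
        fun p h1 h2 h3 => h p h1 h2 ((p.sup _ _).mpr (Or.inr h3))⟩
    · rintro ⟨h, h'⟩ p h1 h2 h3
      rcases (p.sup _ _).mp h3 with h4 | h4
      · exact h p h1 h2 h4
      · exact h' p h1 h2 h4
  map_inf' a b := by
    refine cc_ext fun q => ?_
    rw [cc_inf]
    constructor
    · intro h
      exact ⟨fun p h1 h2 => ((p.inf _ _).mp (h p h1 h2)).1,
        fun p h1 h2 => ((p.inf _ _).mp (h p h1 h2)).2⟩
    · rintro ⟨h, h'⟩ p h1 h2
      exact (p.inf _ _).mpr ⟨h p h1 h2, h' p h1 h2⟩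
  map_top' := by
    refine le_antisymm le_top ?_
    intro q _ p _ _
    exact p.top
  map_bot' := by
    refine le_antisymm ?_ bot_le
    intro q hq
    obtain ⟨p, h1, h2⟩ := q.2
    exact absurd (hq p h1 h2) p.bot

theorem io_mem (s : S) (q : QQ S) :
    mm q (io s) ↔ ∀ p : PH S, p.f q.1.1 → ¬ p.f q.1.2 → p.f s := Iff.rfl

theorem io_mem_compl (s : S) (q : QQ S) :
    mm q ((io s)ᶜ) ↔ ∀ p : PH S, p.f q.1.1 → ¬ p.f q.1.2 → ¬ p.f s :=
  mem_io0_compl s q

theorem io_inj : Function.Injective (io (S := S)) := by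
  have key : ∀ a b : S, io a = io b → a ≤ b := by
    intro a b h
    by_contra hc
    obtain ⟨p, h1, h2⟩ := exists_PH hc
    have h3 : mm (⟨(a, b), p, h1, h2⟩ : QQ S) (io a) := fun p' h4 _ => h4
    rw [h] at h3
    exact h2 (h3 p h1 h2)
  intro a b h
  exact le_antisymm (key a b h) (key b a h.symm)

theorem cc_complete0 (s : Set (Heyting.Regular (LowerSet (QQ S)))) : ∃ y, IsLUB s y := by
  have h1 : IsLUB (Heyting.Regular.val '' s) (sSup (Heyting.Regular.val '' s)) :=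
    isLUB_sSup _
  have h2 := (Heyting.Regular.gi (α := LowerSet (QQ S))).gc.isLUB_l_image h1
  have h3 : (Heyting.Regular.toRegular (α := LowerSet (QQ S))) '' (Heyting.Regular.val '' s)
      = s := by
    rw [Set.image_image]
    simp
  rw [h3] at h2
  exact ⟨_, h2⟩

theorem cc_complete (s : Set (CC S)) : ∃ y, IsLUB s y := cc_complete0 s

theorem cc_dense (γ : CC S) : IsLUB {w | w ≤ γ ∧ ∃ a b, w = io a ⊓ (io b)ᶜ} γ := by
  refine ⟨fun w hw => hw.1, ?_⟩
  intro δ hδ q hq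
  have h1 : io q.1.1 ⊓ (io q.1.2)ᶜ ≤ γ := by
    intro r hr
    have h2 := (cc_inf _ _ _).mp hr
    refine (Heyting.Regular.val γ).lower ?_ hq
    intro p h3 h4
    exact ⟨h2.1 p h3 h4, (io_mem_compl _ _).mp h2.2 p h3 h4⟩
  have h2 : io q.1.1 ⊓ (io q.1.2)ᶜ ≤ δ := hδ ⟨h1, _, _, rfl⟩
  refine h2 ((cc_inf _ _ _).mpr ⟨?_, ?_⟩)
  · intro p h3 _
    exact h3
  · rw [io_mem_compl]
    intro p _ h4
    exact h4

end

end Pool.Agent.Q297.BM
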