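import Pool.Agent.Q297.BM.Basic

/-!
Complete Boolean algebras are injective among bounded distributive lattices.
-/

namespace Pool.Agent.Q297.BM

universe u v w

section
variable {D : Type u} {D' : Type u} {C : Type u} [DistribLattice D] [BoundedOrder D]
  [DistribLattice D'] [BoundedOrder D'] [BooleanAlgebra C]

/-- Partial bounded lattice homomorphisms extending `g` along `j`, as sets of pairs. -/
structure Good (j : BoundedLatticeHom D D') (g : BoundedLatticeHom D C)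
    (F : Set (D' × C)) : Prop where
  bas : ∀ d, (j d, g d) ∈ F
  inf : ∀ p ∈ F, ∀ q ∈ F, (p.1 ⊓ q.1, p.2 ⊓ q.2) ∈ F
  sup : ∀ p ∈ F, ∀ q ∈ F, (p.1 ⊔ q.1, p.2 ⊔ q.2) ∈ F
  mono : ∀ p ∈ F, ∀ q ∈ F, p.1 ≤ q.1 → p.2 ≤ q.2

theorem good_base (j : BoundedLatticeHom D D') (g : BoundedLatticeHom D C)
    (hj : Function.Injective j) : Good j g {p | ∃ d, p = (j d, g d)} where
  bas d := ⟨d, rfl⟩
  inf := by
    rintro _ ⟨d, rfl⟩ _ ⟨e, rfl⟩
    exact ⟨d ⊓ e, by simp⟩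
  sup := by
    rintro _ ⟨d, rfl⟩ _ ⟨e, rfl⟩
    exact ⟨d ⊔ e, by simp⟩
  mono := by
    rintro _ ⟨d, rfl⟩ _ ⟨e, rfl⟩ h
    have h1 : j (d ⊓ e) = j d := by
      rw [map_inf]
      exact inf_eq_left.mpr h
    have h2 : d ⊓ e = d := hj h1
    have h3 : d ≤ e := inf_eq_left.mp h2
    exact OrderHomClass.mono g h3

theorem good_step (hC : ∀ s : Set C, ∃ y, IsLUB s y) (j : BoundedLatticeHom D D')
    (g : BoundedLatticeHom D C) (F : Set (D' × C)) (hF : Good j g F) (x : D') :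
    ∃ F', Good j g F' ∧ F ⊆ F' ∧ ∃ y, (x, y) ∈ F' := by
  obtain ⟨y, hy⟩ := hC {c | ∃ a ∈ F, ∃ b ∈ F, a.1 ≤ b.1 ⊔ x ∧ c = a.2 ⊓ b.2ᶜ}
  have hbot : ((⊥ : D'), (⊥ : C)) ∈ F := by
    have := hF.bas ⊥
    simpa using this
  have htop : ((⊤ : D'), (⊤ : C)) ∈ F := by
    have := hF.bas ⊤
    simpa using this
  refine ⟨{p | ∃ a ∈ F, ∃ b ∈ F, p = (a.1 ⊔ (b.1 ⊓ x), a.2 ⊔ (b.2 ⊓ y))}, ?_, ?_, ?_⟩
  · refine ⟨?_, ?_, ?_, ?_⟩
    · intro d
      exact ⟨(j d, g d), hF.bas d, _, hbot, by simp⟩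
    · rintro _ ⟨a, ha, b, hb, rfl⟩ _ ⟨a', ha', b', hb', rfl⟩
      have h1 := hF.inf a ha a' ha'
      have h2 := hF.inf a ha b' hb'
      have h3 := hF.inf b hb a' ha'
      have h4 := hF.inf b hb b' hb'
      have h5 := hF.sup _ (hF.sup _ h2 _ h3) _ h4
      refine ⟨_, h1, _, h5, ?_⟩
      refine Prod.ext ?_ ?_
      · refine eq_of_PH fun p => ?_
        simp only [p.inf, p.sup]
        tauto
      · refine eq_of_PH fun p => ?_
        simp only [p.inf, p.sup]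
        tauto
    · rintro _ ⟨a, ha, b, hb, rfl⟩ _ ⟨a', ha', b', hb', rfl⟩
      refine ⟨_, hF.sup a ha a' ha', _, hF.sup b hb b' hb', ?_⟩
      refine Prod.ext ?_ ?_
      · refine eq_of_PH fun p => ?_
        simp only [p.inf, p.sup]
        tauto
      · refine eq_of_PH fun p => ?_
        simp only [p.inf, p.sup]
        tauto
    · rintro _ ⟨a, ha, b, hb, rfl⟩ _ ⟨a', ha', b', hb', rfl⟩ h
      simp only at h
      have e1 : a.1 ≤ a'.1 ⊔ b'.1 := le_sup_left.trans (h.trans (sup_le_sup_left inf_le_left _))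
      have e2 : a.1 ≤ a'.1 ⊔ x := le_sup_left.trans (h.trans (sup_le_sup_left inf_le_right _))
      have e3 : b.1 ⊓ x ≤ a'.1 ⊔ b'.1 :=
        le_sup_right.trans (h.trans (sup_le_sup_left inf_le_left _))
      have f1 : a.2 ≤ a'.2 ⊔ b'.2 := hF.mono a ha _ (hF.sup a' ha' b' hb') e1
      have f2 : a.2 ⊓ a'.2ᶜ ≤ y := hy.1 ⟨a, ha, a', ha', e2, rfl⟩
      have f3 : y ≤ b.2ᶜ ⊔ (a'.2 ⊔ b'.2) := by
        refine hy.2 ?_
        rintro _ ⟨a1, ha1, b1, hb1, h1, rfl⟩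
        have e4 : b.1 ⊓ a1.1 ≤ b1.1 ⊔ (a'.1 ⊔ b'.1) := by
          refine le_of_PH fun p => ?_
          have g1 := fun hh => p.mono h1 hh
          have g2 := fun hh => p.mono e3 hh
          simp only [p.inf, p.sup] at g1 g2 ⊢
          tauto
        have f4 : b.2 ⊓ a1.2 ≤ b1.2 ⊔ (a'.2 ⊔ b'.2) :=
          hF.mono _ (hF.inf b hb a1 ha1) _ (hF.sup b1 hb1 _ (hF.sup a' ha' b' hb')) e4
        refine le_of_PH fun p => ?_
        have g1 := fun hh => p.mono f4 hh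
        simp only [p.inf, p.sup, p.compl] at g1 ⊢
        tauto
      refine le_of_PH fun p => ?_
      have g1 := fun hh => p.mono f1 hh
      have g2 := fun hh => p.mono f2 hh
      have g3 := fun hh => p.mono f3 hh
      simp only [p.inf, p.sup, p.compl] at g1 g2 g3 ⊢
      tauto
  · intro a ha
    exact ⟨a, ha, _, hbot, by simp⟩
  · exact ⟨y, _, hbot, _, htop, by simp⟩

/-- Complete Boolean algebras are injective in the category of bounded distributive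
lattices. -/
theorem extend (hC : ∀ s : Set C, ∃ y, IsLUB s y) (j : BoundedLatticeHom D D')
    (hj : Function.Injective j) (g : BoundedLatticeHom D C) :
    ∃ h : BoundedLatticeHom D' C, ∀ d, h (j d) = g d := by
  obtain ⟨M, hM0, hM⟩ := zorn_subset_nonempty {F : Set (D' × C) | Good j g F} (by
    intro c hc hchain hne
    refine ⟨⋃₀ c, ?_, fun s hs => Set.subset_sUnion_of_mem hs⟩
    have key : ∀ p ∈ ⋃₀ c, ∀ q ∈ ⋃₀ c, ∃ F ∈ c, p ∈ F ∧ q ∈ F := by
      rintro p ⟨F, hF, hp⟩ q ⟨F', hF', hq⟩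
      rcases hchain.total hF hF' with h | h
      · exact ⟨F', hF', h hp, hq⟩
      · exact ⟨F, hF, hp, h hq⟩
    refine ⟨?_, ?_, ?_, ?_⟩
    · intro d
      obtain ⟨F, hF⟩ := hne
      exact ⟨F, hF, (hc hF).bas d⟩
    · intro p hp q hq
      obtain ⟨F, hF, h1, h2⟩ := key p hp q hq
      exact ⟨F, hF, (hc hF).inf p h1 q h2⟩
    · intro p hp q hq
      obtain ⟨F, hF, h1, h2⟩ := key p hp q hq
      exact ⟨F, hF, (hc hF).sup p h1 q h2⟩
    · intro p hp q hq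
      obtain ⟨F, hF, h1, h2⟩ := key p hp q hq
      exact (hc hF).mono p h1 q h2) _ (good_base j g hj)
  have hG : Good j g M := hM.1
  have tot : ∀ x, ∃ y, (x, y) ∈ M := by
    intro x
    obtain ⟨F', h1, h2, y, hy⟩ := good_step hC j g M hG x
    exact ⟨y, hM.2 h1 h2 hy⟩
  choose h hh using tot
  have uniq : ∀ x y z, (x, y) ∈ M → (x, z) ∈ M → y = z := fun x y z h1 h2 =>
    le_antisymm (hG.mono _ h1 _ h2 le_rfl) (hG.mono _ h2 _ h1 le_rfl)
  refine ⟨{ toFun := h, map_sup' := ?_, map_inf' := ?_, map_top' := ?_, map_bot' := ?_ }, ?_⟩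
  · intro a b
    exact uniq _ _ _ (hh _) (hG.sup _ (hh a) _ (hh b))
  · intro a b
    exact uniq _ _ _ (hh _) (hG.inf _ (hh a) _ (hh b))
  · refine uniq _ _ _ (hh _) ?_
    have := hG.bas ⊤
    simpa using this
  · refine uniq _ _ _ (hh _) ?_
    have := hG.bas ⊥
    simpa using this
  · intro d
    exact uniq _ _ _ (hh _) (hG.bas d)

end

end Pool.Agent.Q297.BM
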