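import Pool.Agent.Q297.BM.Struct
import Pool.Agent.Q297.BM.Ext
import Pool.Agent.Q297.BM.Compl

/-!
The complemented completion of a model of `Sig` and its properties.
-/

namespace Pool.Agent.Q297.BM

universe u v

/-- `a` and `b` are complements. -/
def Complements {A : Type u} [LBimonoid A] (a b : A) : Prop := a * b ≤ 0 ∧ 1 ≤ a + b

/-- `e : A → B` exhibits `B` as a complemented Dedekind MacNeille completion of `A`. -/
structure IsCDM {A : Type u} {B : Type v} [LBimonoid A] [LBimonoid B] (e : Hom A B) : Prop where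
  inj : Function.Injective e.toFun
  lub : ∀ s : Set B, ∃ y, IsLUB s y
  glb : ∀ s : Set B, ∃ y, IsGLB s y
  compl : ∀ x : B, ∃ y, Complements x y
  joins : ∀ x : B, ∃ s : Set B, (∀ w ∈ s, ∃ (a b : A) (c : B),
    Complements (e.toFun b) c ∧ w = e.toFun a * c) ∧ IsLUB s x
  meets : ∀ x : B, ∃ s : Set B, (∀ w ∈ s, ∃ (a b : A) (c : B),
    Complements (e.toFun b) c ∧ w = e.toFun a + c) ∧ IsGLB s x

/-- Essential embeddings in the variety defined by `E`: every homomorphism from `B` to a member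
of the variety whose composite with `e` is injective is injective. -/
def Essential (E : Set (Tm × Tm)) {A B : Type u} [LBimonoid A] [LBimonoid B] (e : Hom A B) :
    Prop :=
  ∀ (Z : Type u) [LBimonoid Z], Models Z E → ∀ f : Hom B Z,
    Function.Injective (fun x => f.toFun (e.toFun x)) → Function.Injective f.toFun

/-- Injective objects of the variety defined by `E`. -/
def InjObj (E : Set (Tm × Tm)) (B : Type u) [LBimonoid B] : Prop :=
  ∀ (X Z : Type u) [LBimonoid X] [LBimonoid Z], Models X E → Models Z E →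
    ∀ i : Hom X Z, Function.Injective i.toFun → ∀ g : Hom X B,
      ∃ h : Hom Z B, ∀ x, h.toFun (i.toFun x) = g.toFun x

section
variable {C : Type u} [BooleanAlgebra C] {T : TS C}

theorem t'_eq_compl (T : TS C) : T.t' = T.tᶜ := by
  refine eq_of_PH fun p => ?_
  rw [p.t' T, p.compl]

/-- Complements in the algebras of pairs over Boolean algebras. -/
def cB (x : El T) : El T := ⟨x.fstᶜ, x.sndᶜ ⊓ T.t, inf_le_right⟩

@[simp] theorem cB_fst (x : El T) : (cB x).fst = x.fstᶜ := rfl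
@[simp] theorem cB_snd (x : El T) : (cB x).snd = x.sndᶜ ⊓ T.t := rfl

theorem cB_compl (x : El T) : Complements x (cB x) := by
  constructor
  · rw [le_def]
    constructor <;> refine le_of_PH fun p => ?_ <;>
      have h1 := p.t' T <;> have h2 := p.snd x <;> have h3 := p.bot <;> have h4 := p.top <;>
      simp only [mul_fst, mul_snd, zero_fst, zero_snd, cB_fst, cB_snd, p.inf, p.sup, p.compl] <;>
      tauto
  · rw [le_def]
    constructor <;> refine le_of_PH fun p => ?_ <;>
      have h1 := p.t' T <;> have h2 := p.snd x <;> have h3 := p.bot <;> have h4 := p.top <;>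
      simp only [add_fst, add_snd, one_fst, one_snd, cB_fst, cB_snd, p.inf, p.sup, p.compl] <;>
      tauto

theorem cB_cB (x : El T) : cB (cB x) = x := by
  ext
  · simp
  · refine eq_of_PH fun p => ?_
    have h2 := p.snd x
    simp only [cB_snd, p.inf, p.compl]
    tauto

theorem cB_mul (x y : El T) : cB (x * y) = cB x + cB y := by
  ext <;> refine eq_of_PH fun p => ?_ <;>
    have h1 := p.t' T <;> have h2 := p.snd x <;> have h3 := p.snd y <;>
    simp only [mul_fst, mul_snd, add_fst, add_snd, cB_fst, cB_snd, p.inf, p.sup, p.compl] <;>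
    tauto

theorem cB_anti {x y : El T} (h : x ≤ y) : cB y ≤ cB x :=
  ⟨compl_le_compl h.1, inf_le_inf_right _ (compl_le_compl h.2)⟩

theorem cB_le {x y : El T} (h : x ≤ cB y) : y ≤ cB x := by
  have := cB_anti h
  rwa [cB_cB] at this

theorem El_lub (hC : ∀ s : Set C, ∃ y, IsLUB s y) (s : Set (El T)) : ∃ y, IsLUB s y := by
  obtain ⟨a, ha⟩ := hC (El.fst '' s)
  obtain ⟨b, hb⟩ := hC (El.snd '' s)
  refine ⟨⟨a, b, hb.2 ?_⟩, ?_, ?_⟩
  · rintro _ ⟨x, hx, rfl⟩
    exact x.le
  · intro x hx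
    exact ⟨ha.1 ⟨x, hx, rfl⟩, hb.1 ⟨x, hx, rfl⟩⟩
  · intro z hz
    refine ⟨ha.2 ?_, hb.2 ?_⟩
    · rintro _ ⟨x, hx, rfl⟩
      exact (hz hx).1
    · rintro _ ⟨x, hx, rfl⟩
      exact (hz hx).2

theorem El_glb (hC : ∀ s : Set C, ∃ y, IsLUB s y) (s : Set (El T)) : ∃ y, IsGLB s y := by
  obtain ⟨y, hy⟩ := El_lub hC (lowerBounds s)
  exact ⟨y, isLUB_lowerBounds.mp hy⟩

/-- The diagonal embedding of `C`. -/
def jC (T : TS C) (γ : C) : El T := ⟨γ, γ ⊓ T.t, inf_le_right⟩

theorem jC_inf (γ δ : C) : jC T (γ ⊓ δ) = jC T γ ⊓ jC T δ := by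
  ext <;> refine eq_of_PH fun p => ?_ <;>
    simp only [jC, inf_fst, inf_snd, p.inf] <;> tauto

theorem jC_sup (γ δ : C) : jC T (γ ⊔ δ) = jC T γ ⊔ jC T δ := by
  ext <;> refine eq_of_PH fun p => ?_ <;>
    simp only [jC, sup_fst, sup_snd, p.inf, p.sup] <;> tauto

theorem al_eq_jC (x : El T) : al x = jC T x.fst := by
  ext
  · simp [jC]
  · simp [jC]

theorem be_eq_jC (x : El T) : be x = jC T x.snd := by
  have := x.le
  ext
  · simp [jC]
  · simp [jC, this]

end

section
variable {Y : Type u} [LBimonoid Y] (hY : Models Y Sig)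

/-- The complemented constant of the completion. -/
def TC : TS (CC (Sk Y hY)) where
  t := io (TSk hY).t
  t' := io (TSk hY).t'
  inf_eq := by rw [← map_inf, (TSk hY).inf_eq, map_bot]
  sup_eq := by rw [← map_sup, (TSk hY).sup_eq, map_top]

/-- The completion. -/
abbrev BB : Type u := El (TC hY)

/-- The embedding in the completion. -/
def ee : Hom Y (BB hY) := (mapEl (TSk hY) (TC hY) io rfl rfl).comp (KK hY)

theorem ee_fst (y : Y) : ((ee hY).toFun y).fst = io (sal hY y) := rfl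
theorem ee_snd (y : Y) : ((ee hY).toFun y).snd = io (sbe hY y) := rfl

theorem ee_inj : Function.Injective (ee hY).toFun := by
  intro x y h
  have h1 : io (sal hY x) = io (sal hY y) := congrArg El.fst h
  have h2 : io (sbe hY x) = io (sbe hY y) := congrArg El.snd h
  have h3 : sal hY x = sal hY y := io_inj h1
  have h4 : sbe hY x = sbe hY y := io_inj h2
  exact eq_of_al_be hY (congrArg (fun z => z.1) h3) (congrArg (fun z => z.1) h4)

include hY in
theorem id_al_pair (x y : Y) : al ((x * uu Y ⊓ 1) ⊔ (y * uu Y ⊓ 0)) = x * uu Y :=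
  hY (ta (.sup (.inf (.mul (.var 0) tu) .one) (.inf (.mul (.var 1) tu) .zero)),
    .mul (.var 0) tu) (by
    intro q w
    ext <;>
      (have h0 := (w 0).le
       have h1 := (w 1).le
       have h2 := (w 2).le
       simp only [TP_t, le_Prop_eq] at h0 h1 h2
       simp only [Tm.eval, tu, tv, tT, tT', ta, tb, mul_fst, mul_snd, add_fst, add_snd,
         inf_fst, inf_snd, sup_fst, sup_snd, one_fst, one_snd, zero_fst, zero_snd, TP_t, TP_t',
         inf_Prop_eq, sup_Prop_eq, Prop.top_eq_true, Prop.bot_eq_false]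
       tauto)) (V3 x y x)

include hY in
theorem id_be_pair (x y : Y) : be ((x * uu Y ⊓ 1) ⊔ (y * uu Y ⊓ 0)) = y * uu Y ⊓ tt Y :=
  hY (tb (.sup (.inf (.mul (.var 0) tu) .one) (.inf (.mul (.var 1) tu) .zero)),
    .inf (.mul (.var 1) tu) tT) (by
    intro q w
    ext <;>
      (have h0 := (w 0).le
       have h1 := (w 1).le
       have h2 := (w 2).le
       simp only [TP_t, le_Prop_eq] at h0 h1 h2
       simp only [Tm.eval, tu, tv, tT, tT', ta, tb, mul_fst, mul_snd, add_fst, add_snd,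
         inf_fst, inf_snd, sup_fst, sup_snd, one_fst, one_snd, zero_fst, zero_snd, TP_t, TP_t',
         inf_Prop_eq, sup_Prop_eq, Prop.top_eq_true, Prop.bot_eq_false]
       tauto)) (V3 x y x)

theorem ee_pair (a b : Sk Y hY) : ∃ y : Y, ((ee hY).toFun y).fst = io a ∧
    ((ee hY).toFun y).snd = io b ⊓ (TC hY).t := by
  refine ⟨(a.1 ⊓ 1) ⊔ (b.1 ⊓ 0), ?_, ?_⟩
  · rw [ee_fst]
    congr 1
    refine sk_ext ?_
    have h := id_al_pair hY a.1 b.1
    rw [a.2, b.2] at h
    exact h
  · rw [ee_snd]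
    have h1 : sbe hY ((a.1 ⊓ 1) ⊔ (b.1 ⊓ 0)) = b ⊓ (TSk hY).t := by
      refine sk_ext ?_
      have h := id_be_pair hY a.1 b.1
      rw [a.2, b.2] at h
      exact h
    rw [h1, map_inf]
    rfl

theorem ee_sk (a : Sk Y hY) : (ee hY).toFun a.1 = jC (TC hY) (io a) := by
  ext
  · rw [ee_fst]
    show io (sal hY a.1) = io a
    congr 1
    refine sk_ext ?_
    have h := id_al_sk hY a.1
    rw [a.2] at h
    exact h
  · rw [ee_snd]
    have h1 : sbe hY a.1 = a ⊓ (TSk hY).t := by
      refine sk_ext ?_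
      have h := id_be_sk hY a.1
      rw [a.2] at h
      exact h
    rw [h1, map_inf]
    rfl

theorem ee_joins (x : BB hY) :
    IsLUB {w | w ≤ x ∧ ∃ a b, w = (ee hY).toFun a * cB ((ee hY).toFun b)} x := by
  refine ⟨fun w hw => hw.1, ?_⟩
  intro z hz
  have hxle := x.le
  constructor
  · refine (cc_dense x.fst).2 ?_
    rintro w ⟨hw, a, b, rfl⟩
    obtain ⟨a1, ha1, ha2⟩ := ee_pair hY a ⊥
    obtain ⟨b1, hb1, hb2⟩ := ee_pair hY b ⊤
    have h1 : ((ee hY).toFun a1 * cB ((ee hY).toFun b1)).fst = io a ⊓ (io b)ᶜ := by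
      rw [mul_fst, cB_fst, cB_snd, ha1, ha2, hb1, map_bot]
      simp
    have h2 : ((ee hY).toFun a1 * cB ((ee hY).toFun b1)).snd = ⊥ := by
      rw [mul_snd, cB_fst, cB_snd, ha1, ha2, hb1, hb2, map_bot, map_top]
      simp
    have h3 : (ee hY).toFun a1 * cB ((ee hY).toFun b1) ≤ x := by
      constructor
      · rw [h1]; exact hw
      · rw [h2]; exact bot_le
    have h4 := (hz ⟨h3, a1, b1, rfl⟩).1
    rw [h1] at h4
    exact h4
  · refine (cc_dense x.snd).2 ?_
    rintro w ⟨hw, a, b, rfl⟩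
    obtain ⟨a1, ha1, ha2⟩ := ee_pair hY ⊥ a
    obtain ⟨b1, hb1, hb2⟩ := ee_pair hY b ⊤
    have h0 : io a ⊓ (io b)ᶜ ≤ (TC hY).t := hw.trans hxle
    have h1 : ((ee hY).toFun a1 * cB ((ee hY).toFun b1)).fst = ⊥ := by
      rw [mul_fst, cB_fst, cB_snd, ha1, ha2, hb1, hb2, map_bot, map_top]
      simp
    have h2 : ((ee hY).toFun a1 * cB ((ee hY).toFun b1)).snd = io a ⊓ (io b)ᶜ := by
      rw [mul_snd, cB_fst, cB_snd, ha1, ha2, hb1, map_bot]
      refine eq_of_PH fun p => ?_
      have h5 := fun hh => p.mono h0 hh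
      have h6 := p.bot
      simp only [p.inf, p.sup, p.compl] at h5 ⊢
      tauto
    have h3 : (ee hY).toFun a1 * cB ((ee hY).toFun b1) ≤ x := by
      constructor
      · rw [h1]; exact bot_le
      · rw [h2]; exact hw
    have h4 := (hz ⟨h3, a1, b1, rfl⟩).2
    rw [h2] at h4
    exact h4

theorem ee_meets (x : BB hY) :
    IsGLB {w | x ≤ w ∧ ∃ a b, w = (ee hY).toFun a + cB ((ee hY).toFun b)} x := by
  refine ⟨fun w hw => hw.1, ?_⟩
  intro z hz
  have h1 : cB x ≤ cB z := by
    refine (ee_joins hY (cB x)).2 ?_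
    rintro w ⟨hw, a, b, rfl⟩
    have h2 := cB_le hw
    have h3 : cB ((ee hY).toFun a * cB ((ee hY).toFun b)) =
        (ee hY).toFun b + cB ((ee hY).toFun a) := by
      rw [cB_mul, cB_cB, LBimonoid.addComm]
    exact cB_le (hz ⟨h2, b, a, h3⟩)
  have h4 := cB_anti h1
  rwa [cB_cB, cB_cB] at h4

theorem ee_cdm : IsCDM (ee hY) where
  inj := ee_inj hY
  lub := El_lub cc_complete
  glb := El_glb cc_complete
  compl x := ⟨cB x, cB_compl x⟩
  joins x := by
    refine ⟨_, ?_, ee_joins hY x⟩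
    rintro w ⟨_, a, b, hw⟩
    exact ⟨a, b, _, cB_compl _, hw⟩
  meets x := by
    refine ⟨_, ?_, ee_meets hY x⟩
    rintro w ⟨_, a, b, hw⟩
    exact ⟨a, b, _, cB_compl _, hw⟩

theorem ee_essential : Essential Sig (ee hY) := by
  intro Z _ hZ f hf
  have kinf : ∀ γ δ, f.toFun (jC (TC hY) (γ ⊓ δ)) =
      f.toFun (jC (TC hY) γ) ⊓ f.toFun (jC (TC hY) δ) := by
    intro γ δ
    rw [jC_inf, f.map_inf]
  have ksup : ∀ γ δ, f.toFun (jC (TC hY) (γ ⊔ δ)) =
      f.toFun (jC (TC hY) γ) ⊔ f.toFun (jC (TC hY) δ) := by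
    intro γ δ
    rw [jC_sup, f.map_sup]
  have kmono : ∀ γ δ, γ ≤ δ → f.toFun (jC (TC hY) γ) ≤ f.toFun (jC (TC hY) δ) := by
    intro γ δ h
    have h1 := kinf γ δ
    rw [inf_eq_left.mpr h] at h1
    rw [h1]
    exact inf_le_right
  have key : ∀ γ δ, f.toFun (jC (TC hY) γ) = f.toFun (jC (TC hY) δ) → γ ≤ δ := by
    intro γ δ h
    have h1 : γ ⊓ δᶜ ≤ ⊥ := by
      refine (cc_dense (γ ⊓ δᶜ)).2 ?_
      rintro w ⟨hw, a, b, rfl⟩
      have h2 : f.toFun (jC (TC hY) (io a ⊓ (io b)ᶜ)) = f.toFun (jC (TC hY) ⊥) := by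
        refine le_antisymm ?_ (kmono _ _ bot_le)
        refine (kmono _ _ hw).trans ?_
        rw [kinf, h, ← kinf]
        simp
      have h3 : f.toFun (jC (TC hY) (io a)) = f.toFun (jC (TC hY) (io (a ⊓ b))) := by
        have h4 : io a = io (a ⊓ b) ⊔ (io a ⊓ (io b)ᶜ) := by
          rw [map_inf]
          refine eq_of_PH fun p => ?_
          simp only [p.inf, p.sup, p.compl]
          tauto
        have h5 := ksup (io (a ⊓ b)) (io a ⊓ (io b)ᶜ)
        rw [← h4, h2, ← ksup, sup_bot_eq] at h5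
        exact h5
      rw [← ee_sk, ← ee_sk] at h3
      have h6 : a.1 = (a ⊓ b).1 := hf h3
      have h7 : a = a ⊓ b := sk_ext h6
      rw [h7, map_inf, inf_assoc, inf_compl_eq_bot, inf_bot_eq]
    refine le_of_PH fun p hp => ?_
    have h8 := fun hh => p.mono h1 hh
    have h9 := p.bot
    simp only [p.inf, p.compl] at h8
    tauto
  intro x x' h
  have e1 : x.fst = x'.fst := by
    have h1 : f.toFun (al x) = f.toFun (al x') := by rw [f.map_al, f.map_al, h]
    rw [al_eq_jC, al_eq_jC] at h1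
    exact le_antisymm (key _ _ h1) (key _ _ h1.symm)
  have e2 : x.snd = x'.snd := by
    have h1 : f.toFun (be x) = f.toFun (be x') := by rw [f.map_be, f.map_be, h]
    rw [be_eq_jC, be_eq_jC] at h1
    exact le_antisymm (key _ _ h1) (key _ _ h1.symm)
  exact El.ext e1 e2

theorem BB_injective : InjObj Sig (BB hY) := by
  intro X Z _ _ hX hZ i hi g
  let gS : BoundedLatticeHom (Sk X hX) (CC (Sk Y hY)) :=
    { toFun := fun z => (g.toFun z.1).fst
      map_sup' := fun x y => by
        show (g.toFun (x.1 ⊔ y.1)).fst = _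
        rw [g.map_sup]
        rfl
      map_inf' := fun x y => by
        show (g.toFun (x.1 ⊓ y.1)).fst = _
        rw [g.map_inf]
        rfl
      map_top' := by
        show (g.toFun (uu X)).fst = _
        rw [g.map_uu, uu_fst]
      map_bot' := by
        show (g.toFun (vv X)).fst = _
        rw [g.map_vv, vv_fst] }
  have hj : Function.Injective (skMap hX hZ i) := by
    intro a b h
    exact sk_ext (hi (congrArg Subtype.val h))
  obtain ⟨hS, hhS⟩ := extend cc_complete (skMap hX hZ i) hj gS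
  have ht : hS (TSk hZ).t = (TC hY).t := by
    have h1 : (TSk hZ).t = skMap hX hZ i (TSk hX).t := sk_ext i.map_tt.symm
    rw [h1, hhS]
    show (g.toFun (tt X)).fst = _
    rw [g.map_tt, tt_fst]
  have ht' : hS (TSk hZ).t' = (TC hY).t' := by
    have h1 : (TSk hZ).t' = skMap hX hZ i (TSk hX).t' := sk_ext i.map_tt'.symm
    rw [h1, hhS]
    show (g.toFun (tt' X)).fst = _
    rw [g.map_tt', tt'_fst]
  refine ⟨(mapEl (TSk hZ) (TC hY) hS ht ht').comp (KK hZ), ?_⟩
  intro x
  ext
  · show hS (sal hZ (i.toFun x)) = (g.toFun x).fst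
    have h1 : sal hZ (i.toFun x) = skMap hX hZ i (sal hX x) := sk_ext (i.map_al x).symm
    rw [h1, hhS]
    show (g.toFun (al x)).fst = _
    rw [g.map_al, al_fst]
  · show hS (sbe hZ (i.toFun x)) = (g.toFun x).snd
    have h1 : sbe hZ (i.toFun x) = skMap hX hZ i (sbe hX x) := sk_ext (i.map_be x).symm
    rw [h1, hhS]
    show (g.toFun (be x)).fst = _
    rw [g.map_be, be_fst]

end

end Pool.Agent.Q297.BM
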