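import Pool.Agent.Q297.BM.Basic

/-!
Structure theory of the models of `Sig`.
-/

namespace Pool.Agent.Q297.BM

universe u v

section
variable {Y : Type u} [LBimonoid Y]

def uu (Y : Type u) [LBimonoid Y] : Y := 1 ⊔ 0
def vv (Y : Type u) [LBimonoid Y] : Y := 1 ⊓ 0
def tt (Y : Type u) [LBimonoid Y] : Y := 0 * 0 ⊔ 0
def tt' (Y : Type u) [LBimonoid Y] : Y := (1 + 1) ⊓ 1
def al (x : Y) : Y := (x ⊓ 1) * uu Y
def be (x : Y) : Y := (x ⊓ 0) * uu Y

def tu : Tm := .sup .one .zero
def tv : Tm := .inf .one .zero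
def tT : Tm := .sup (.mul .zero .zero) .zero
def tT' : Tm := .inf (.add .one .one) .one
def ta (s : Tm) : Tm := .mul (.inf s .one) tu
def tb (s : Tm) : Tm := .mul (.inf s .zero) tu

def V3 (x y z : Y) : ℕ → Y
  | 0 => x
  | 1 => y
  | _ => z

end

section
variable {Y : Type u} [LBimonoid Y] (hY : Models Y Sig)
include hY

theorem id_mul_uu (x : Y) : x * uu Y * uu Y = x * uu Y :=
  hY (.mul (.mul (.var 0) tu) tu, .mul (.var 0) tu) (by
    intro q w
    ext <;>
      (have h0 := (w 0).le
       have h1 := (w 1).le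
       have h2 := (w 2).le
       simp only [TP_t, le_Prop_eq] at h0 h1 h2
       simp only [Tm.eval, tu, tv, tT, tT', ta, tb, mul_fst, mul_snd, add_fst, add_snd,
         inf_fst, inf_snd, sup_fst, sup_snd, one_fst, one_snd, zero_fst, zero_snd, TP_t, TP_t',
         inf_Prop_eq, sup_Prop_eq, Prop.top_eq_true, Prop.bot_eq_false]
       tauto)) (V3 x x x)

theorem id_inf_cl (x y : Y) : ((x * uu Y) ⊓ (y * uu Y)) * uu Y = (x * uu Y) ⊓ (y * uu Y) :=
  hY (.mul (.inf (.mul (.var 0) tu) (.mul (.var 1) tu)) tu,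
    .inf (.mul (.var 0) tu) (.mul (.var 1) tu)) (by
    intro q w
    ext <;>
      (have h0 := (w 0).le
       have h1 := (w 1).le
       have h2 := (w 2).le
       simp only [TP_t, le_Prop_eq] at h0 h1 h2
       simp only [Tm.eval, tu, tv, tT, tT', ta, tb, mul_fst, mul_snd, add_fst, add_snd,
         inf_fst, inf_snd, sup_fst, sup_snd, one_fst, one_snd, zero_fst, zero_snd, TP_t, TP_t',
         inf_Prop_eq, sup_Prop_eq, Prop.top_eq_true, Prop.bot_eq_false]
       tauto)) (V3 x y x)

theorem id_sup_cl (x y : Y) : ((x * uu Y) ⊔ (y * uu Y)) * uu Y = (x * uu Y) ⊔ (y * uu Y) :=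
  hY (.mul (.sup (.mul (.var 0) tu) (.mul (.var 1) tu)) tu,
    .sup (.mul (.var 0) tu) (.mul (.var 1) tu)) (by
    intro q w
    ext <;>
      (have h0 := (w 0).le
       have h1 := (w 1).le
       have h2 := (w 2).le
       simp only [TP_t, le_Prop_eq] at h0 h1 h2
       simp only [Tm.eval, tu, tv, tT, tT', ta, tb, mul_fst, mul_snd, add_fst, add_snd,
         inf_fst, inf_snd, sup_fst, sup_snd, one_fst, one_snd, zero_fst, zero_snd, TP_t, TP_t',
         inf_Prop_eq, sup_Prop_eq, Prop.top_eq_true, Prop.bot_eq_false]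
       tauto)) (V3 x y x)

theorem id_uu : uu Y * uu Y = uu Y :=
  hY (.mul tu tu, tu) (by
    intro q w
    ext <;>
      (have h0 := (w 0).le
       have h1 := (w 1).le
       have h2 := (w 2).le
       simp only [TP_t, le_Prop_eq] at h0 h1 h2
       simp only [Tm.eval, tu, tv, tT, tT', ta, tb, mul_fst, mul_snd, add_fst, add_snd,
         inf_fst, inf_snd, sup_fst, sup_snd, one_fst, one_snd, zero_fst, zero_snd, TP_t, TP_t',
         inf_Prop_eq, sup_Prop_eq, Prop.top_eq_true, Prop.bot_eq_false]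
       tauto)) (V3 1 1 1)

theorem id_vv : vv Y * uu Y = vv Y :=
  hY (.mul tv tu, tv) (by
    intro q w
    ext <;>
      (have h0 := (w 0).le
       have h1 := (w 1).le
       have h2 := (w 2).le
       simp only [TP_t, le_Prop_eq] at h0 h1 h2
       simp only [Tm.eval, tu, tv, tT, tT', ta, tb, mul_fst, mul_snd, add_fst, add_snd,
         inf_fst, inf_snd, sup_fst, sup_snd, one_fst, one_snd, zero_fst, zero_snd, TP_t, TP_t',
         inf_Prop_eq, sup_Prop_eq, Prop.top_eq_true, Prop.bot_eq_false]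
       tauto)) (V3 1 1 1)

theorem id_tt : tt Y * uu Y = tt Y :=
  hY (.mul tT tu, tT) (by
    intro q w
    ext <;>
      (have h0 := (w 0).le
       have h1 := (w 1).le
       have h2 := (w 2).le
       simp only [TP_t, le_Prop_eq] at h0 h1 h2
       simp only [Tm.eval, tu, tv, tT, tT', ta, tb, mul_fst, mul_snd, add_fst, add_snd,
         inf_fst, inf_snd, sup_fst, sup_snd, one_fst, one_snd, zero_fst, zero_snd, TP_t, TP_t',
         inf_Prop_eq, sup_Prop_eq, Prop.top_eq_true, Prop.bot_eq_false]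
       tauto)) (V3 1 1 1)

theorem id_tt' : tt' Y * uu Y = tt' Y :=
  hY (.mul tT' tu, tT') (by
    intro q w
    ext <;>
      (have h0 := (w 0).le
       have h1 := (w 1).le
       have h2 := (w 2).le
       simp only [TP_t, le_Prop_eq] at h0 h1 h2
       simp only [Tm.eval, tu, tv, tT, tT', ta, tb, mul_fst, mul_snd, add_fst, add_snd,
         inf_fst, inf_snd, sup_fst, sup_snd, one_fst, one_snd, zero_fst, zero_snd, TP_t, TP_t',
         inf_Prop_eq, sup_Prop_eq, Prop.top_eq_true, Prop.bot_eq_false]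
       tauto)) (V3 1 1 1)

theorem id_bot (x : Y) : vv Y ⊓ x = vv Y :=
  hY (.inf tv (.var 0), tv) (by
    intro q w
    ext <;>
      (have h0 := (w 0).le
       have h1 := (w 1).le
       have h2 := (w 2).le
       simp only [TP_t, le_Prop_eq] at h0 h1 h2
       simp only [Tm.eval, tu, tv, tT, tT', ta, tb, mul_fst, mul_snd, add_fst, add_snd,
         inf_fst, inf_snd, sup_fst, sup_snd, one_fst, one_snd, zero_fst, zero_snd, TP_t, TP_t',
         inf_Prop_eq, sup_Prop_eq, Prop.top_eq_true, Prop.bot_eq_false]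
       tauto)) (V3 x x x)

theorem id_top (x : Y) : uu Y ⊓ x = x :=
  hY (.inf tu (.var 0), (.var 0)) (by
    intro q w
    ext <;>
      (have h0 := (w 0).le
       have h1 := (w 1).le
       have h2 := (w 2).le
       simp only [TP_t, le_Prop_eq] at h0 h1 h2
       simp only [Tm.eval, tu, tv, tT, tT', ta, tb, mul_fst, mul_snd, add_fst, add_snd,
         inf_fst, inf_snd, sup_fst, sup_snd, one_fst, one_snd, zero_fst, zero_snd, TP_t, TP_t',
         inf_Prop_eq, sup_Prop_eq, Prop.top_eq_true, Prop.bot_eq_false]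
       tauto)) (V3 x x x)

theorem id_distrib (x y z : Y) : x ⊓ (y ⊔ z) = (x ⊓ y) ⊔ (x ⊓ z) :=
  hY (.inf (.var 0) (.sup (.var 1) (.var 2)),
    .sup (.inf (.var 0) (.var 1)) (.inf (.var 0) (.var 2))) (by
    intro q w
    ext <;>
      (have h0 := (w 0).le
       have h1 := (w 1).le
       have h2 := (w 2).le
       simp only [TP_t, le_Prop_eq] at h0 h1 h2
       simp only [Tm.eval, tu, tv, tT, tT', ta, tb, mul_fst, mul_snd, add_fst, add_snd,
         inf_fst, inf_snd, sup_fst, sup_snd, one_fst, one_snd, zero_fst, zero_snd, TP_t, TP_t',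
         inf_Prop_eq, sup_Prop_eq, Prop.top_eq_true, Prop.bot_eq_false]
       tauto)) (V3 x y z)

theorem id_tt_inf : tt Y ⊓ tt' Y = vv Y :=
  hY (.inf tT tT', tv) (by
    intro q w
    ext <;>
      (have h0 := (w 0).le
       have h1 := (w 1).le
       have h2 := (w 2).le
       simp only [TP_t, le_Prop_eq] at h0 h1 h2
       simp only [Tm.eval, tu, tv, tT, tT', ta, tb, mul_fst, mul_snd, add_fst, add_snd,
         inf_fst, inf_snd, sup_fst, sup_snd, one_fst, one_snd, zero_fst, zero_snd, TP_t, TP_t',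
         inf_Prop_eq, sup_Prop_eq, Prop.top_eq_true, Prop.bot_eq_false]
       tauto)) (V3 1 1 1)

theorem id_tt_sup : tt Y ⊔ tt' Y = uu Y :=
  hY (.sup tT tT', tu) (by
    intro q w
    ext <;>
      (have h0 := (w 0).le
       have h1 := (w 1).le
       have h2 := (w 2).le
       simp only [TP_t, le_Prop_eq] at h0 h1 h2
       simp only [Tm.eval, tu, tv, tT, tT', ta, tb, mul_fst, mul_snd, add_fst, add_snd,
         inf_fst, inf_snd, sup_fst, sup_snd, one_fst, one_snd, zero_fst, zero_snd, TP_t, TP_t',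
         inf_Prop_eq, sup_Prop_eq, Prop.top_eq_true, Prop.bot_eq_false]
       tauto)) (V3 1 1 1)

theorem id_be_le (x : Y) : be x ⊓ tt Y = be x :=
  hY (.inf (tb (.var 0)) tT, tb (.var 0)) (by
    intro q w
    ext <;>
      (have h0 := (w 0).le
       have h1 := (w 1).le
       have h2 := (w 2).le
       simp only [TP_t, le_Prop_eq] at h0 h1 h2
       simp only [Tm.eval, tu, tv, tT, tT', ta, tb, mul_fst, mul_snd, add_fst, add_snd,
         inf_fst, inf_snd, sup_fst, sup_snd, one_fst, one_snd, zero_fst, zero_snd, TP_t, TP_t',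
         inf_Prop_eq, sup_Prop_eq, Prop.top_eq_true, Prop.bot_eq_false]
       tauto)) (V3 x x x)

theorem id_recover (x : Y) : (al x ⊓ 1) ⊔ (be x ⊓ 0) = x :=
  hY (.sup (.inf (ta (.var 0)) .one) (.inf (tb (.var 0)) .zero), .var 0) (by
    intro q w
    ext <;>
      (have h0 := (w 0).le
       have h1 := (w 1).le
       have h2 := (w 2).le
       simp only [TP_t, le_Prop_eq] at h0 h1 h2
       simp only [Tm.eval, tu, tv, tT, tT', ta, tb, mul_fst, mul_snd, add_fst, add_snd,
         inf_fst, inf_snd, sup_fst, sup_snd, one_fst, one_snd, zero_fst, zero_snd, TP_t, TP_t',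
         inf_Prop_eq, sup_Prop_eq, Prop.top_eq_true, Prop.bot_eq_false]
       tauto)) (V3 x x x)

theorem id_al_mul (x y : Y) : al (x * y) = (al x ⊓ al y) ⊔ (be x ⊓ be y) :=
  hY (ta (.mul (.var 0) (.var 1)),
    .sup (.inf (ta (.var 0)) (ta (.var 1))) (.inf (tb (.var 0)) (tb (.var 1))))
    (by
    intro q w
    ext <;>
      (have h0 := (w 0).le
       have h1 := (w 1).le
       have h2 := (w 2).le
       simp only [TP_t, le_Prop_eq] at h0 h1 h2
       simp only [Tm.eval, tu, tv, tT, tT', ta, tb, mul_fst, mul_snd, add_fst, add_snd,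
         inf_fst, inf_snd, sup_fst, sup_snd, one_fst, one_snd, zero_fst, zero_snd, TP_t, TP_t',
         inf_Prop_eq, sup_Prop_eq, Prop.top_eq_true, Prop.bot_eq_false]
       tauto)) (V3 x y x)

theorem id_be_mul (x y : Y) : be (x * y) = (al x ⊓ be y) ⊔ (be x ⊓ al y) :=
  hY (tb (.mul (.var 0) (.var 1)),
    .sup (.inf (ta (.var 0)) (tb (.var 1))) (.inf (tb (.var 0)) (ta (.var 1))))
    (by
    intro q w
    ext <;>
      (have h0 := (w 0).le
       have h1 := (w 1).le
       have h2 := (w 2).le
       simp only [TP_t, le_Prop_eq] at h0 h1 h2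
       simp only [Tm.eval, tu, tv, tT, tT', ta, tb, mul_fst, mul_snd, add_fst, add_snd,
         inf_fst, inf_snd, sup_fst, sup_snd, one_fst, one_snd, zero_fst, zero_snd, TP_t, TP_t',
         inf_Prop_eq, sup_Prop_eq, Prop.top_eq_true, Prop.bot_eq_false]
       tauto)) (V3 x y x)

theorem id_al_add (x y : Y) : al (x + y) = (al x ⊔ al y) ⊓ (be x ⊔ be y ⊔ tt' Y) :=
  hY (ta (.add (.var 0) (.var 1)),
    .inf (.sup (ta (.var 0)) (ta (.var 1))) (.sup (.sup (tb (.var 0)) (tb (.var 1))) tT'))
    (by
    intro q w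
    ext <;>
      (have h0 := (w 0).le
       have h1 := (w 1).le
       have h2 := (w 2).le
       simp only [TP_t, le_Prop_eq] at h0 h1 h2
       simp only [Tm.eval, tu, tv, tT, tT', ta, tb, mul_fst, mul_snd, add_fst, add_snd,
         inf_fst, inf_snd, sup_fst, sup_snd, one_fst, one_snd, zero_fst, zero_snd, TP_t, TP_t',
         inf_Prop_eq, sup_Prop_eq, Prop.top_eq_true, Prop.bot_eq_false]
       tauto)) (V3 x y x)

theorem id_be_add (x y : Y) : be (x + y) = (al x ⊔ be y) ⊓ (be x ⊔ al y) ⊓ tt Y :=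
  hY (tb (.add (.var 0) (.var 1)),
    .inf (.inf (.sup (ta (.var 0)) (tb (.var 1))) (.sup (tb (.var 0)) (ta (.var 1)))) tT)
    (by
    intro q w
    ext <;>
      (have h0 := (w 0).le
       have h1 := (w 1).le
       have h2 := (w 2).le
       simp only [TP_t, le_Prop_eq] at h0 h1 h2
       simp only [Tm.eval, tu, tv, tT, tT', ta, tb, mul_fst, mul_snd, add_fst, add_snd,
         inf_fst, inf_snd, sup_fst, sup_snd, one_fst, one_snd, zero_fst, zero_snd, TP_t, TP_t',
         inf_Prop_eq, sup_Prop_eq, Prop.top_eq_true, Prop.bot_eq_false]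
       tauto)) (V3 x y x)

theorem id_al_inf (x y : Y) : al (x ⊓ y) = al x ⊓ al y :=
  hY (ta (.inf (.var 0) (.var 1)), .inf (ta (.var 0)) (ta (.var 1))) (by
    intro q w
    ext <;>
      (have h0 := (w 0).le
       have h1 := (w 1).le
       have h2 := (w 2).le
       simp only [TP_t, le_Prop_eq] at h0 h1 h2
       simp only [Tm.eval, tu, tv, tT, tT', ta, tb, mul_fst, mul_snd, add_fst, add_snd,
         inf_fst, inf_snd, sup_fst, sup_snd, one_fst, one_snd, zero_fst, zero_snd, TP_t, TP_t',
         inf_Prop_eq, sup_Prop_eq, Prop.top_eq_true, Prop.bot_eq_false]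
       tauto)) (V3 x y x)

theorem id_be_inf (x y : Y) : be (x ⊓ y) = be x ⊓ be y :=
  hY (tb (.inf (.var 0) (.var 1)), .inf (tb (.var 0)) (tb (.var 1))) (by
    intro q w
    ext <;>
      (have h0 := (w 0).le
       have h1 := (w 1).le
       have h2 := (w 2).le
       simp only [TP_t, le_Prop_eq] at h0 h1 h2
       simp only [Tm.eval, tu, tv, tT, tT', ta, tb, mul_fst, mul_snd, add_fst, add_snd,
         inf_fst, inf_snd, sup_fst, sup_snd, one_fst, one_snd, zero_fst, zero_snd, TP_t, TP_t',
         inf_Prop_eq, sup_Prop_eq, Prop.top_eq_true, Prop.bot_eq_false]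
       tauto)) (V3 x y x)

theorem id_al_sup (x y : Y) : al (x ⊔ y) = al x ⊔ al y :=
  hY (ta (.sup (.var 0) (.var 1)), .sup (ta (.var 0)) (ta (.var 1))) (by
    intro q w
    ext <;>
      (have h0 := (w 0).le
       have h1 := (w 1).le
       have h2 := (w 2).le
       simp only [TP_t, le_Prop_eq] at h0 h1 h2
       simp only [Tm.eval, tu, tv, tT, tT', ta, tb, mul_fst, mul_snd, add_fst, add_snd,
         inf_fst, inf_snd, sup_fst, sup_snd, one_fst, one_snd, zero_fst, zero_snd, TP_t, TP_t',
         inf_Prop_eq, sup_Prop_eq, Prop.top_eq_true, Prop.bot_eq_false]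
       tauto)) (V3 x y x)

theorem id_be_sup (x y : Y) : be (x ⊔ y) = be x ⊔ be y :=
  hY (tb (.sup (.var 0) (.var 1)), .sup (tb (.var 0)) (tb (.var 1))) (by
    intro q w
    ext <;>
      (have h0 := (w 0).le
       have h1 := (w 1).le
       have h2 := (w 2).le
       simp only [TP_t, le_Prop_eq] at h0 h1 h2
       simp only [Tm.eval, tu, tv, tT, tT', ta, tb, mul_fst, mul_snd, add_fst, add_snd,
         inf_fst, inf_snd, sup_fst, sup_snd, one_fst, one_snd, zero_fst, zero_snd, TP_t, TP_t',
         inf_Prop_eq, sup_Prop_eq, Prop.top_eq_true, Prop.bot_eq_false]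
       tauto)) (V3 x y x)

theorem id_al_one : al (1 : Y) = uu Y :=
  hY (ta .one, tu) (by
    intro q w
    ext <;>
      (have h0 := (w 0).le
       have h1 := (w 1).le
       have h2 := (w 2).le
       simp only [TP_t, le_Prop_eq] at h0 h1 h2
       simp only [Tm.eval, tu, tv, tT, tT', ta, tb, mul_fst, mul_snd, add_fst, add_snd,
         inf_fst, inf_snd, sup_fst, sup_snd, one_fst, one_snd, zero_fst, zero_snd, TP_t, TP_t',
         inf_Prop_eq, sup_Prop_eq, Prop.top_eq_true, Prop.bot_eq_false]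
       tauto)) (V3 1 1 1)

theorem id_be_one : be (1 : Y) = vv Y :=
  hY (tb .one, tv) (by
    intro q w
    ext <;>
      (have h0 := (w 0).le
       have h1 := (w 1).le
       have h2 := (w 2).le
       simp only [TP_t, le_Prop_eq] at h0 h1 h2
       simp only [Tm.eval, tu, tv, tT, tT', ta, tb, mul_fst, mul_snd, add_fst, add_snd,
         inf_fst, inf_snd, sup_fst, sup_snd, one_fst, one_snd, zero_fst, zero_snd, TP_t, TP_t',
         inf_Prop_eq, sup_Prop_eq, Prop.top_eq_true, Prop.bot_eq_false]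
       tauto)) (V3 1 1 1)

theorem id_al_zero : al (0 : Y) = vv Y :=
  hY (ta .zero, tv) (by
    intro q w
    ext <;>
      (have h0 := (w 0).le
       have h1 := (w 1).le
       have h2 := (w 2).le
       simp only [TP_t, le_Prop_eq] at h0 h1 h2
       simp only [Tm.eval, tu, tv, tT, tT', ta, tb, mul_fst, mul_snd, add_fst, add_snd,
         inf_fst, inf_snd, sup_fst, sup_snd, one_fst, one_snd, zero_fst, zero_snd, TP_t, TP_t',
         inf_Prop_eq, sup_Prop_eq, Prop.top_eq_true, Prop.bot_eq_false]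
       tauto)) (V3 1 1 1)

theorem id_be_zero : be (0 : Y) = tt Y :=
  hY (tb .zero, tT) (by
    intro q w
    ext <;>
      (have h0 := (w 0).le
       have h1 := (w 1).le
       have h2 := (w 2).le
       simp only [TP_t, le_Prop_eq] at h0 h1 h2
       simp only [Tm.eval, tu, tv, tT, tT', ta, tb, mul_fst, mul_snd, add_fst, add_snd,
         inf_fst, inf_snd, sup_fst, sup_snd, one_fst, one_snd, zero_fst, zero_snd, TP_t, TP_t',
         inf_Prop_eq, sup_Prop_eq, Prop.top_eq_true, Prop.bot_eq_false]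
       tauto)) (V3 1 1 1)

theorem id_al_sk (x : Y) : al (x * uu Y) = x * uu Y :=
  hY (ta (.mul (.var 0) tu), .mul (.var 0) tu) (by
    intro q w
    ext <;>
      (have h0 := (w 0).le
       have h1 := (w 1).le
       have h2 := (w 2).le
       simp only [TP_t, le_Prop_eq] at h0 h1 h2
       simp only [Tm.eval, tu, tv, tT, tT', ta, tb, mul_fst, mul_snd, add_fst, add_snd,
         inf_fst, inf_snd, sup_fst, sup_snd, one_fst, one_snd, zero_fst, zero_snd, TP_t, TP_t',
         inf_Prop_eq, sup_Prop_eq, Prop.top_eq_true, Prop.bot_eq_false]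
       tauto)) (V3 x x x)

theorem id_be_sk (x : Y) : be (x * uu Y) = x * uu Y ⊓ tt Y :=
  hY (tb (.mul (.var 0) tu), .inf (.mul (.var 0) tu) tT) (by
    intro q w
    ext <;>
      (have h0 := (w 0).le
       have h1 := (w 1).le
       have h2 := (w 2).le
       simp only [TP_t, le_Prop_eq] at h0 h1 h2
       simp only [Tm.eval, tu, tv, tT, tT', ta, tb, mul_fst, mul_snd, add_fst, add_snd,
         inf_fst, inf_snd, sup_fst, sup_snd, one_fst, one_snd, zero_fst, zero_snd, TP_t, TP_t',
         inf_Prop_eq, sup_Prop_eq, Prop.top_eq_true, Prop.bot_eq_false]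
       tauto)) (V3 x x x)

end

/-- The skeleton of a model of `Sig`: the elements with `z · (1 ∨ 0) = z`. -/
def Sk (Y : Type u) [LBimonoid Y] (_hY : Models Y Sig) : Type u := {z : Y // z * uu Y = z}

section
variable {Y : Type u} [LBimonoid Y] {hY : Models Y Sig}

theorem sk_ext {x y : Sk Y hY} (h : x.1 = y.1) : x = y := Subtype.ext h

instance : DistribLattice (Sk Y hY) :=
  { le := fun x y => x.1 ≤ y.1
    le_refl := fun x => le_refl _
    le_trans := fun x y z h h' => le_trans (α := Y) h h'
    le_antisymm := fun x y h h' => sk_ext (le_antisymm (α := Y) h h')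
    inf := fun x y => ⟨x.1 ⊓ y.1, by
      have h := id_inf_cl hY x.1 y.1
      rw [x.2, y.2] at h
      exact h⟩
    sup := fun x y => ⟨x.1 ⊔ y.1, by
      have h := id_sup_cl hY x.1 y.1
      rw [x.2, y.2] at h
      exact h⟩
    inf_le_left := fun x y => inf_le_left (α := Y)
    inf_le_right := fun x y => inf_le_right (α := Y)
    le_inf := fun x y z h h' => le_inf (α := Y) h h'
    le_sup_left := fun x y => le_sup_left (α := Y)
    le_sup_right := fun x y => le_sup_right (α := Y)
    sup_le := fun x y z h h' => sup_le (α := Y) h h'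
    le_sup_inf := fun x y z => by
      let _ : DistribLattice Y :=
        DistribLattice.ofInfSupLe fun x y z => (id_distrib hY x y z).le
      exact le_sup_inf (α := Y) (x := x.1) (y := y.1) (z := z.1) }

instance : BoundedOrder (Sk Y hY) where
  top := ⟨uu Y, id_uu hY⟩
  bot := ⟨vv Y, id_vv hY⟩
  le_top x := by
    have h := id_top hY x.1
    exact (inf_eq_right (α := Y)).mp h
  bot_le x := by
    have h := id_bot hY x.1
    exact (inf_eq_left (α := Y)).mp h

theorem sk_inf (x y : Sk Y hY) : (x ⊓ y).1 = x.1 ⊓ y.1 := rfl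
theorem sk_sup (x y : Sk Y hY) : (x ⊔ y).1 = x.1 ⊔ y.1 := rfl
theorem sk_top : (⊤ : Sk Y hY).1 = uu Y := rfl
theorem sk_bot : (⊥ : Sk Y hY).1 = vv Y := rfl
theorem sk_le (x y : Sk Y hY) : x ≤ y ↔ x.1 ≤ y.1 := Iff.rfl

variable (hY)

/-- The complemented constant of the skeleton. -/
def TSk : TS (Sk Y hY) where
  t := ⟨tt Y, id_tt hY⟩
  t' := ⟨tt' Y, id_tt' hY⟩
  inf_eq := sk_ext (id_tt_inf hY)
  sup_eq := sk_ext (id_tt_sup hY)

/-- The two components. -/
def sal (x : Y) : Sk Y hY := ⟨al x, id_mul_uu hY _⟩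
def sbe (x : Y) : Sk Y hY := ⟨be x, id_mul_uu hY _⟩

theorem sbe_le (x : Y) : sbe hY x ≤ (TSk hY).t :=
  (inf_eq_left (α := Y)).mp (id_be_le hY x)

/-- The decomposition of a model of `Sig` as an algebra of pairs over its skeleton. -/
def KK : Hom Y (El (TSk hY)) where
  toFun x := ⟨sal hY x, sbe hY x, sbe_le hY x⟩
  map_mul x y := by
    ext
    · exact sk_ext (id_al_mul hY x y)
    · exact sk_ext (id_be_mul hY x y)
  map_add x y := by
    ext
    · exact sk_ext (id_al_add hY x y)
    · exact sk_ext (id_be_add hY x y)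
  map_one := by
    ext
    · exact sk_ext (id_al_one hY)
    · exact sk_ext (id_be_one hY)
  map_zero := by
    ext
    · exact sk_ext (id_al_zero hY)
    · exact sk_ext (id_be_zero hY)
  map_inf x y := by
    ext
    · exact sk_ext (id_al_inf hY x y)
    · exact sk_ext (id_be_inf hY x y)
  map_sup x y := by
    ext
    · exact sk_ext (id_al_sup hY x y)
    · exact sk_ext (id_be_sup hY x y)

include hY in
theorem eq_of_al_be {x y : Y} (h1 : al x = al y) (h2 : be x = be y) : x = y := by
  rw [← id_recover hY x, ← id_recover hY y, h1, h2]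

theorem KK_inj : Function.Injective (KK hY).toFun := by
  intro x y h
  have h1 : al x = al y := congrArg (fun z => (El.fst z).1) h
  have h2 : be x = be y := congrArg (fun z => (El.snd z).1) h
  exact eq_of_al_be hY h1 h2

end

section
variable {S : Type u} [DistribLattice S] [BoundedOrder S]
  {C : Type v} [DistribLattice C] [BoundedOrder C]

/-- A bounded lattice homomorphism preserving the constants induces a homomorphism of the
algebras of pairs. -/
def mapEl (T : TS S) (T' : TS C) (κ : BoundedLatticeHom S C) (ht : κ T.t = T'.t)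
    (ht' : κ T.t' = T'.t') : Hom (El T) (El T') where
  toFun x := ⟨κ x.fst, κ x.snd, by rw [← ht]; exact OrderHomClass.mono κ x.le⟩
  map_mul x y := by
    ext <;> simp
  map_add x y := by
    ext <;> simp [ht, ht']
  map_one := by
    ext <;> simp
  map_zero := by
    ext <;> simp [ht]
  map_inf x y := by
    ext <;> simp
  map_sup x y := by
    ext <;> simp

end

/-- Composition of homomorphisms. -/
def Hom.comp {X Y Z : Type u} [LBimonoid X] [LBimonoid Y] [LBimonoid Z] (g : Hom Y Z)
    (f : Hom X Y) : Hom X Z where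
  toFun x := g.toFun (f.toFun x)
  map_mul x y := by rw [f.map_mul, g.map_mul]
  map_add x y := by rw [f.map_add, g.map_add]
  map_one := by rw [f.map_one, g.map_one]
  map_zero := by rw [f.map_zero, g.map_zero]
  map_inf x y := by rw [f.map_inf, g.map_inf]
  map_sup x y := by rw [f.map_sup, g.map_sup]

section
variable {X Z : Type u} [LBimonoid X] [LBimonoid Z]

theorem Hom.map_uu (f : Hom X Z) : f.toFun (uu X) = uu Z := by
  unfold uu; rw [f.map_sup, f.map_one, f.map_zero]

theorem Hom.map_vv (f : Hom X Z) : f.toFun (vv X) = vv Z := by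
  unfold vv; rw [f.map_inf, f.map_one, f.map_zero]

theorem Hom.map_tt (f : Hom X Z) : f.toFun (tt X) = tt Z := by
  unfold tt; rw [f.map_sup, f.map_mul, f.map_zero]

theorem Hom.map_tt' (f : Hom X Z) : f.toFun (tt' X) = tt' Z := by
  unfold tt'; rw [f.map_inf, f.map_add, f.map_one]

theorem Hom.map_al (f : Hom X Z) (x : X) : f.toFun (al x) = al (f.toFun x) := by
  unfold al; rw [f.map_mul, f.map_inf, f.map_one, f.map_uu]

theorem Hom.map_be (f : Hom X Z) (x : X) : f.toFun (be x) = be (f.toFun x) := by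
  unfold be; rw [f.map_mul, f.map_inf, f.map_zero, f.map_uu]

/-- The induced map on skeletons. -/
def skMap (hX : Models X Sig) (hZ : Models Z Sig) (f : Hom X Z) :
    BoundedLatticeHom (Sk X hX) (Sk Z hZ) where
  toFun x := ⟨f.toFun x.1, by rw [← f.map_uu, ← f.map_mul, x.2]⟩
  map_sup' x y := sk_ext (f.map_sup x.1 y.1)
  map_inf' x y := sk_ext (f.map_inf x.1 y.1)
  map_top' := sk_ext f.map_uu
  map_bot' := sk_ext f.map_vv

theorem skMap_val (hX : Models X Sig) (hZ : Models Z Sig) (f : Hom X Z) (x : Sk X hX) :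
    (skMap hX hZ f x).1 = f.toFun x.1 := rfl

end

section
variable {C : Type u} [DistribLattice C] [BoundedOrder C] (T : TS C)

@[simp] theorem uu_fst : (uu (El T)).fst = ⊤ := by simp [uu]
@[simp] theorem uu_snd : (uu (El T)).snd = T.t := by simp [uu]
@[simp] theorem vv_fst : (vv (El T)).fst = ⊥ := by simp [vv]
@[simp] theorem vv_snd : (vv (El T)).snd = ⊥ := by simp [vv]
@[simp] theorem tt_fst : (tt (El T)).fst = T.t := by simp [tt]
@[simp] theorem tt_snd : (tt (El T)).snd = T.t := by simp [tt]
@[simp] theorem tt'_fst : (tt' (El T)).fst = T.t' := by simp [tt']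
@[simp] theorem tt'_snd : (tt' (El T)).snd = ⊥ := by simp [tt']
variable {T}
@[simp] theorem al_fst (x : El T) : (al x).fst = x.fst := by simp [al]
@[simp] theorem al_snd (x : El T) : (al x).snd = x.fst ⊓ T.t := by simp [al]
@[simp] theorem be_fst (x : El T) : (be x).fst = x.snd := by
  have := x.le
  simp [be, this]
@[simp] theorem be_snd (x : El T) : (be x).snd = x.snd := by
  have := x.le
  simp [be, this]

end

end Pool.Agent.Q297.BM
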