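import Pool.Agent.Q297.BM.Hull

/-!
Uniqueness of complemented Dedekind MacNeille completions.
-/

namespace Pool.Agent.Q297.BM

universe u v

open LBimonoid

section
variable {B : Type u} [LBimonoid B]

theorem mul_mono_right {x y : B} (z : B) (h : x ≤ y) : z * x ≤ z * y := by
  have h1 := mulSup z x y
  rw [sup_eq_right.mpr h] at h1
  rw [h1]
  exact le_sup_left

theorem mul_mono_left {x y : B} (z : B) (h : x ≤ y) : x * z ≤ y * z := by
  rw [mulComm x z, mulComm y z]
  exact mul_mono_right z h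

theorem add_mono_right {x y : B} (z : B) (h : x ≤ y) : z + x ≤ z + y := by
  have h1 := addInf z x y
  rw [inf_eq_left.mpr h] at h1
  rw [h1]
  exact inf_le_right

theorem add_mono_left {x y : B} (z : B) (h : x ≤ y) : x + z ≤ y + z := by
  rw [addComm x z, addComm y z]
  exact add_mono_right z h

theorem Complements.symm {a b : B} (h : Complements a b) : Complements b a :=
  ⟨by rw [mulComm]; exact h.1, by rw [addComm]; exact h.2⟩

theorem mulOne (x : B) : x * 1 = x := by rw [mulComm, oneMul]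

theorem addZero (x : B) : x + 0 = x := by rw [addComm, zeroAdd]

/-- Residuation along complements. -/
theorem res {b c : B} (h : Complements b c) (a d : B) : a * b ≤ d ↔ a ≤ d + c := by
  constructor
  · intro h1
    calc a = a * 1 := (mulOne a).symm
      _ ≤ a * (b + c) := mul_mono_right a h.2
      _ ≤ a * b + c := hemi a b c
      _ ≤ d + c := add_mono_left c h1
  · intro h1
    calc a * b ≤ (d + c) * b := mul_mono_left b h1
      _ = b * (c + d) := by rw [mulComm, addComm d c]
      _ ≤ b * c + d := hemi b c d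
      _ ≤ 0 + d := add_mono_left d h.1
      _ = d := zeroAdd d

theorem compl_unique {b c c' : B} (h : Complements b c) (h' : Complements b c') : c = c' := by
  apply le_antisymm
  · have h1 : c * b ≤ 0 := by rw [mulComm]; exact h.1
    have h2 := (res h' c 0).mp h1
    rwa [zeroAdd] at h2
  · have h1 : c' * b ≤ 0 := by rw [mulComm]; exact h'.1
    have h2 := (res h c' 0).mp h1
    rwa [zeroAdd] at h2

theorem compl_mul {a b c d : B} (h : Complements a b) (h' : Complements c d) :
    Complements (a * c) (b + d) := by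
  constructor
  · -- a c (b + d) ≤ 0
    calc a * c * (b + d) = a * (c * (d + b)) := by rw [mulAssoc, addComm b d]
      _ ≤ a * (c * d + b) := mul_mono_right a (hemi c d b)
      _ ≤ a * (0 + b) := mul_mono_right a (add_mono_left b h'.1)
      _ = a * b := by rw [zeroAdd]
      _ ≤ 0 := h.1
  · calc (1 : B) = 1 * 1 := (oneMul 1).symm
      _ ≤ (a + b) * 1 := mul_mono_left 1 h.2
      _ ≤ (a + b) * (c + d) := mul_mono_right _ h'.2
      _ ≤ (a + b) * c + d := hemi _ _ _
      _ = c * (a + b) + d := by rw [mulComm]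
      _ ≤ (c * a + b) + d := add_mono_left d (hemi c a b)
      _ = a * c + (b + d) := by rw [mulComm c a, addAssoc]

theorem compl_anti {a b c d : B} (h : Complements a b) (h' : Complements c d) (hac : a ≤ c) :
    d ≤ b := by
  have h1 : d * a ≤ 0 := (mul_mono_right d hac).trans (by rw [mulComm]; exact h'.1)
  have h2 := (res h d 0).mp h1
  rwa [zeroAdd] at h2

end

/-- A completion with a chosen complementation and the density statements. -/
structure Dat {A B : Type u} [LBimonoid A] [LBimonoid B] (e : Hom A B) (c : B → B) : Prop where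
  inj : Function.Injective e.toFun
  lub : ∀ s : Set B, ∃ y, IsLUB s y
  compl : ∀ x : B, Complements x (c x)
  joins : ∀ x : B, IsLUB {w | w ≤ x ∧ ∃ a b, w = e.toFun a * c (e.toFun b)} x
  meets : ∀ x : B, IsGLB {w | x ≤ w ∧ ∃ a b, w = e.toFun a + c (e.toFun b)} x

section
variable {A : Type u} [LBimonoid A] {B : Type u} [LBimonoid B]

theorem exists_dat {e : Hom A B} (h : IsCDM e) : ∃ c, Dat e c := by
  choose c hc using h.compl
  refine ⟨c, h.inj, h.lub, hc, ?_, ?_⟩
  · intro x
    refine ⟨fun w hw => hw.1, fun z hz => ?_⟩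
    obtain ⟨s, hs, hsx⟩ := h.joins x
    refine hsx.2 fun w hw => hz ⟨hsx.1 hw, ?_⟩
    obtain ⟨a, b, d, hd, rfl⟩ := hs w hw
    exact ⟨a, b, by rw [compl_unique hd (hc _)]⟩
  · intro x
    refine ⟨fun w hw => hw.1, fun z hz => ?_⟩
    obtain ⟨s, hs, hsx⟩ := h.meets x
    refine hsx.2 fun w hw => hz ⟨hsx.1 hw, ?_⟩
    obtain ⟨a, b, d, hd, rfl⟩ := hs w hw
    exact ⟨a, b, by rw [compl_unique hd (hc _)]⟩

variable {e : Hom A B} {c : B → B} (D : Dat e c)
include D

theorem Dat.cc (x : B) : c (c x) = x :=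
  compl_unique (D.compl (c x)) (D.compl x).symm

theorem Dat.cmul (x y : B) : c (x * y) = c x + c y :=
  compl_unique (D.compl _) (compl_mul (D.compl x) (D.compl y))

theorem Dat.cadd (x y : B) : c (x + y) = c x * c y := by
  have h := D.cmul (c x) (c y)
  rw [D.cc, D.cc] at h
  rw [← h, D.cc]

theorem Dat.anti {x y : B} (h : x ≤ y) : c y ≤ c x := compl_anti (D.compl x) (D.compl y) h

theorem Dat.le_c {x y : B} : x ≤ c y ↔ y ≤ c x := by
  constructor
  · intro h
    have := D.anti h
    rwa [D.cc] at this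
  · intro h
    have := D.anti h
    rwa [D.cc] at this

theorem Dat.emb (a b : A) : e.toFun a ≤ e.toFun b ↔ a ≤ b := by
  rw [← inf_eq_left, ← inf_eq_left, ← e.map_inf]
  exact D.inj.eq_iff

/-- The order between the joining and the meeting generators is determined by `A`. -/
theorem Dat.rel (a b p q : A) :
    e.toFun a * c (e.toFun b) ≤ e.toFun p + c (e.toFun q) ↔ a * q ≤ p + b := by
  rw [← res (D.compl (e.toFun q)), mulAssoc, mulComm (c (e.toFun b)), ← mulAssoc,
    res (D.compl (e.toFun b)).symm, ← e.map_mul, ← e.map_add, D.emb]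

theorem Dat.le_iff_joins (x z : B) :
    x ≤ z ↔ ∀ a b, e.toFun a * c (e.toFun b) ≤ x → e.toFun a * c (e.toFun b) ≤ z := by
  constructor
  · intro h a b h1
    exact h1.trans h
  · intro h
    refine (D.joins x).2 ?_
    rintro w ⟨hw, a, b, rfl⟩
    exact h a b hw

theorem Dat.le_iff_meets (x z : B) :
    z ≤ x ↔ ∀ a b, x ≤ e.toFun a + c (e.toFun b) → z ≤ e.toFun a + c (e.toFun b) := by
  constructor
  · intro h a b h1
    exact h.trans h1
  · intro h
    refine (D.meets x).2 ?_
    rintro w ⟨hw, a, b, rfl⟩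
    exact h a b hw

theorem Dat.mul_le (x y z : B) : x * y ≤ z ↔
    ∀ a b a' b', e.toFun a * c (e.toFun b) ≤ x → e.toFun a' * c (e.toFun b') ≤ y →
      e.toFun (a * a') * c (e.toFun (b + b')) ≤ z := by
  have comb : ∀ a b a' b', e.toFun (a * a') * c (e.toFun (b + b')) =
      (e.toFun a * c (e.toFun b)) * (e.toFun a' * c (e.toFun b')) := by
    intro a b a' b'
    rw [e.map_mul, e.map_add, D.cadd, mulAssoc, mulAssoc, ← mulAssoc (e.toFun a') (c _) (c _),
      mulComm (e.toFun a') (c (e.toFun b)), mulAssoc (c (e.toFun b))]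
  constructor
  · intro h a b a' b' h1 h2
    rw [comb]
    exact ((mul_mono_left _ h1).trans (mul_mono_right _ h2)).trans h
  · intro h
    rw [res (D.compl y), D.le_iff_joins]
    intro a b h1
    rw [← res (D.compl y), mulComm, res (D.compl _), D.le_iff_joins]
    intro a' b' h2
    rw [← res (D.compl _), mulComm, ← comb]
    exact h a b a' b' h1 h2

end

section
variable {A : Type u} [LBimonoid A] {B : Type u} [LBimonoid B] {B' : Type u} [LBimonoid B']

/-- The correspondence between two completions. -/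
def RJ (e : Hom A B) (c : B → B) (e' : Hom A B') (c' : B' → B') (x : B) (y : B') : Prop :=
  ∀ a b, e.toFun a * c (e.toFun b) ≤ x ↔ e'.toFun a * c' (e'.toFun b) ≤ y

def RM (e : Hom A B) (c : B → B) (e' : Hom A B') (c' : B' → B') (x : B) (y : B') : Prop :=
  ∀ a b, x ≤ e.toFun a + c (e.toFun b) ↔ y ≤ e'.toFun a + c' (e'.toFun b)

variable {e : Hom A B} {c : B → B} {e' : Hom A B'} {c' : B' → B'}

theorem RJ.symm {x : B} {y : B'} (h : RJ e c e' c' x y) : RJ e' c' e c y x :=
  fun a b => (h a b).symm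

theorem RM.symm {x : B} {y : B'} (h : RM e c e' c' x y) : RM e' c' e c y x :=
  fun a b => (h a b).symm

variable (D : Dat e c) (D' : Dat e' c')
include D D'

theorem RJ.toRM {x : B} {y : B'} (h : RJ e c e' c' x y) : RM e c e' c' x y := by
  intro p q
  rw [D.le_iff_joins, D'.le_iff_joins]
  constructor
  · intro h1 a b h2
    rw [D'.rel, ← D.rel]
    exact h1 a b ((h a b).mpr h2)
  · intro h1 a b h2
    rw [D.rel, ← D'.rel]
    exact h1 a b ((h a b).mp h2)

theorem RM.toRJ {x : B} {y : B'} (h : RM e c e' c' x y) : RJ e c e' c' x y := by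
  intro a b
  rw [D.le_iff_meets, D'.le_iff_meets]
  constructor
  · intro h1 p q h2
    rw [D'.rel, ← D.rel]
    exact h1 p q ((h p q).mpr h2)
  · intro h1 p q h2
    rw [D.rel, ← D'.rel]
    exact h1 p q ((h p q).mp h2)

theorem RJ.le_iff {x z : B} {y t : B'} (h : RJ e c e' c' x y) (h' : RJ e c e' c' z t) :
    x ≤ z ↔ y ≤ t := by
  rw [D.le_iff_joins, D'.le_iff_joins]
  constructor
  · intro h1 a b h2
    exact (h' a b).mp (h1 a b ((h a b).mpr h2))
  · intro h1 a b h2
    exact (h' a b).mpr (h1 a b ((h a b).mp h2))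

theorem RJ.exists (x : B) : ∃ y : B', RJ e c e' c' x y := by
  obtain ⟨y, hy⟩ := D'.lub {w | ∃ a b, e.toFun a * c (e.toFun b) ≤ x ∧
    w = e'.toFun a * c' (e'.toFun b)}
  refine ⟨y, fun a b => ⟨fun h => hy.1 ⟨a, b, h, rfl⟩, fun h => ?_⟩⟩
  rw [D.le_iff_meets]
  intro p q hpq
  rw [D.rel, ← D'.rel]
  refine h.trans (hy.2 ?_)
  rintro w ⟨a1, b1, h1, rfl⟩
  rw [D'.rel, ← D.rel]
  exact h1.trans hpq

theorem RJ.gen (p : A) : RJ e c e' c' (e.toFun p) (e'.toFun p) := by
  intro a b
  rw [res (D.compl _).symm, res (D'.compl _).symm, ← e.map_add, ← e'.map_add, D.emb, D'.emb]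

theorem RJ.compl {x : B} {y : B'} (h : RJ e c e' c' x y) : RJ e c e' c' (c x) (c' y) := by
  intro a b
  have h1 := h.toRM D D' b a
  rw [D.le_c, D'.le_c, D.cmul, D'.cmul, D.cc, D'.cc, addComm (c _), addComm (c' _)]
  exact h1

theorem RJ.mul {x z : B} {y t : B'} (h : RJ e c e' c' x y) (h' : RJ e c e' c' z t) :
    RJ e c e' c' (x * z) (y * t) := by
  refine RM.toRJ D D' ?_
  intro p q
  rw [D.mul_le, D'.mul_le]
  constructor
  · intro h1 a b a' b' h2 h3
    rw [D'.rel, ← D.rel]
    exact h1 a b a' b' ((h a b).mpr h2) ((h' a' b').mpr h3)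
  · intro h1 a b a' b' h2 h3
    rw [D.rel, ← D'.rel]
    exact h1 a b a' b' ((h a b).mp h2) ((h' a' b').mp h3)

theorem RJ.add {x z : B} {y t : B'} (h : RJ e c e' c' x y) (h' : RJ e c e' c' z t) :
    RJ e c e' c' (x + z) (y + t) := by
  have h1 := RJ.compl D D' (RJ.mul D D' (RJ.compl D D' h) (RJ.compl D D' h'))
  rw [D.cmul, D'.cmul, D.cc, D.cc, D'.cc, D'.cc] at h1
  exact h1

theorem RJ.uniq {x : B} {y t : B'} (h : RJ e c e' c' x y) (h' : RJ e c e' c' x t) : y = t :=
  le_antisymm ((h.le_iff D D' h').mp le_rfl) ((h'.le_iff D D' h).mp le_rfl)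

/-- Two complemented completions are isomorphic over `A`. -/
theorem dat_iso : ∃ (φ : Hom B B') (ψ : Hom B' B), (∀ x, ψ.toFun (φ.toFun x) = x) ∧
    (∀ y, φ.toFun (ψ.toFun y) = y) ∧ ∀ a, φ.toFun (e.toFun a) = e'.toFun a := by
  choose f hf using fun x => RJ.exists D D' x
  choose g hg using fun y => RJ.exists D' D y
  have gf : ∀ x, g (f x) = x := fun x => RJ.uniq D' D (hg (f x)) (hf x).symm
  have fg : ∀ y, f (g y) = y := fun y => RJ.uniq D D' (hf (g y)) (hg y).symm
  let F : B ≃o B' :=
    { toFun := f, invFun := g, left_inv := gf, right_inv := fg,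
      map_rel_iff' := fun {a b} => ((hf a).le_iff D D' (hf b)).symm }
  have hfF : ∀ x, F x = f x := fun _ => rfl
  have hgF : ∀ x, F.symm x = g x := fun _ => rfl
  refine ⟨{ toFun := f, map_mul := ?_, map_add := ?_, map_one := ?_, map_zero := ?_,
            map_inf := ?_, map_sup := ?_ },
          { toFun := g, map_mul := ?_, map_add := ?_, map_one := ?_, map_zero := ?_,
            map_inf := ?_, map_sup := ?_ }, gf, fg, ?_⟩
  · exact fun x y => RJ.uniq D D' (hf _) (RJ.mul D D' (hf x) (hf y))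
  · exact fun x y => RJ.uniq D D' (hf _) (RJ.add D D' (hf x) (hf y))
  · have h := RJ.gen D D' 1
    rw [e.map_one, e'.map_one] at h
    exact RJ.uniq D D' (hf _) h
  · have h := RJ.gen D D' 0
    rw [e.map_zero, e'.map_zero] at h
    exact RJ.uniq D D' (hf _) h
  · exact fun x y => F.map_inf x y
  · exact fun x y => F.map_sup x y
  · exact fun x y => RJ.uniq D' D (hg _) (RJ.mul D' D (hg x) (hg y))
  · exact fun x y => RJ.uniq D' D (hg _) (RJ.add D' D (hg x) (hg y))
  · have h := RJ.gen D' D 1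
    rw [e.map_one, e'.map_one] at h
    exact RJ.uniq D' D (hg _) h
  · have h := RJ.gen D' D 0
    rw [e.map_zero, e'.map_zero] at h
    exact RJ.uniq D' D (hg _) h
  · exact fun x y => F.symm.map_inf x y
  · exact fun x y => F.symm.map_sup x y
  · exact fun a => RJ.uniq D D' (hf _) (RJ.gen D D' a)

end

/-- Complemented Dedekind MacNeille completions are unique up to isomorphism over `A`. -/
theorem cdm_iso {A B B' : Type u} [LBimonoid A] [LBimonoid B] [LBimonoid B']
    {e : Hom A B} {e' : Hom A B'} (h : IsCDM e) (h' : IsCDM e') :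
    ∃ (φ : Hom B B') (ψ : Hom B' B), (∀ x, ψ.toFun (φ.toFun x) = x) ∧
      (∀ y, φ.toFun (ψ.toFun y) = y) ∧ ∀ a, φ.toFun (e.toFun a) = e'.toFun a := by
  obtain ⟨c, D⟩ := exists_dat h
  obtain ⟨c', D'⟩ := exists_dat h'
  exact dat_iso D D'

/-- Every complemented Dedekind MacNeille completion of a model of `Sig` is a model of `Sig`
and an injective hull. -/
theorem cdm_hull {A B : Type u} [LBimonoid A] [LBimonoid B] (hA : Models A Sig) (e : Hom A B)
    (h : IsCDM e) : Models B Sig ∧ Essential Sig e ∧ InjObj Sig B := by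
  obtain ⟨φ, ψ, h1, h2, h3⟩ := cdm_iso (ee_cdm hA) h
  refine ⟨?_, ?_, ?_⟩
  · intro p hp w
    have h4 := El_models (TC hA) p hp (fun n => ψ.toFun (w n))
    have h5 := congrArg φ.toFun h4
    rw [φ.eval, φ.eval] at h5
    simpa [h2] using h5
  · intro Z _ hZ f hf
    have h4 := ee_essential hA Z hZ (f.comp φ) (by
      intro x y hxy
      refine hf ?_
      show f.toFun (e.toFun x) = f.toFun (e.toFun y)
      rw [← h3, ← h3]
      exact hxy)
    intro x y hxy
    have h5 : ψ.toFun x = ψ.toFun y := by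
      refine h4 ?_
      show f.toFun (φ.toFun (ψ.toFun x)) = f.toFun (φ.toFun (ψ.toFun y))
      rw [h2, h2]
      exact hxy
    rw [← h2 x, ← h2 y, h5]
  · intro X Z _ _ hX hZ i hi g
    obtain ⟨k, hk⟩ := BB_injective hA X Z hX hZ i hi (ψ.comp g)
    refine ⟨φ.comp k, fun x => ?_⟩
    show φ.toFun (k.toFun (i.toFun x)) = _
    rw [hk]
    exact h2 _

end Pool.Agent.Q297.BM
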